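import Pool.Agent.H36.KD.Defs

/-!
# [H36 KD Comp] from lower bounds for all boxes to a two-sided bound for anchored boxes
-/

set_option autoImplicit false

namespace Pool.Agent.H36.KD

open Finset

/-- cutting a box by a hyperplane -/
private theorem mu_cut {d : ℕ} (z : ℕ → Fin d → ℝ) (N : ℕ) (a b : Fin d → ℝ) (r : Fin d) (c : ℝ)
    (h1 : a r ≤ c) (h2 : c ≤ b r) :
    mu z N a b = mu z N a (Function.update b r c) + mu z N (Function.update a r c) b := by
  have hcount : (((range N).filter (fun i => ∀ r, a r ≤ z i r ∧ z i r < b r)).card : ℝ) =
      (((range N).filter (fun i => ∀ r', a r' ≤ z i r' ∧ z i r' < Function.update b r c r')).card : ℝ)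
      + (((range N).filter (fun i => ∀ r', Function.update a r c r' ≤ z i r' ∧
        z i r' < b r')).card : ℝ) := by
    have hnat : ((range N).filter (fun i => ∀ r, a r ≤ z i r ∧ z i r < b r)).card =
      ((range N).filter (fun i => ∀ r', a r' ≤ z i r' ∧ z i r' < Function.update b r c r')).card
      + ((range N).filter (fun i => ∀ r', Function.update a r c r' ≤ z i r' ∧
        z i r' < b r')).card := by
      rw [Finset.card_filter, Finset.card_filter, Finset.card_filter, ← Finset.sum_add_distrib]
      refine Finset.sum_congr rfl fun i _ => ?_
      have e1 : (∀ r', a r' ≤ z i r' ∧ z i r' < Function.update b r c r') ↔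
          (∀ r, a r ≤ z i r ∧ z i r < b r) ∧ z i r < c := by
        constructor
        · intro h
          have hr : z i r < c := by
            have := (h r).2
            rwa [Function.update_self] at this
          refine ⟨fun r' => ⟨(h r').1, ?_⟩, hr⟩
          by_cases hrr : r' = r
          · subst hrr
            exact lt_of_lt_of_le hr h2
          · have := (h r').2
            rwa [Function.update_of_ne hrr] at this
        · rintro ⟨h, hr⟩ r'
          refine ⟨(h r').1, ?_⟩
          by_cases hrr : r' = r
          · subst hrr
            rwa [Function.update_self]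
          · rw [Function.update_of_ne hrr]
            exact (h r').2
      have e2 : (∀ r', Function.update a r c r' ≤ z i r' ∧ z i r' < b r') ↔
          (∀ r, a r ≤ z i r ∧ z i r < b r) ∧ ¬ z i r < c := by
        constructor
        · intro h
          have hr : c ≤ z i r := by
            have := (h r).1
            rwa [Function.update_self] at this
          refine ⟨fun r' => ⟨?_, (h r').2⟩, not_lt.2 hr⟩
          by_cases hrr : r' = r
          · subst hrr
            exact h1.trans hr
          · have := (h r').1
            rwa [Function.update_of_ne hrr] at this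
        · rintro ⟨h, hr⟩ r'
          refine ⟨?_, (h r').2⟩
          by_cases hrr : r' = r
          · subst hrr
            rw [Function.update_self]
            exact not_lt.1 hr
          · rw [Function.update_of_ne hrr]
            exact (h r').1
      by_cases hP : ∀ r, a r ≤ z i r ∧ z i r < b r
      · by_cases hc : z i r < c
        · rw [if_pos hP, if_pos (e1.2 ⟨hP, hc⟩), if_neg (fun h => (e2.1 h).2 hc)]
        · rw [if_pos hP, if_neg (fun h => hc (e1.1 h).2), if_pos (e2.2 ⟨hP, hc⟩)]
      · rw [if_neg hP, if_neg (fun h => hP (e1.1 h).1), if_neg (fun h => hP (e2.1 h).1)]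
    exact_mod_cast hnat
  have hvol : ∏ r, (b r - a r) = ∏ r', (Function.update b r c r' - a r') +
      ∏ r', (b r' - Function.update a r c r') := by
    rw [← Finset.mul_prod_erase univ (fun r => b r - a r) (mem_univ r),
      ← Finset.mul_prod_erase univ (fun r' => Function.update b r c r' - a r') (mem_univ r),
      ← Finset.mul_prod_erase univ (fun r' => b r' - Function.update a r c r') (mem_univ r)]
    have p1 : ∏ x ∈ univ.erase r, (Function.update b r c x - a x) =
        ∏ x ∈ univ.erase r, (b x - a x) :=
      Finset.prod_congr rfl fun x hx => by
        rw [Function.update_of_ne (Finset.ne_of_mem_erase hx)]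
    have p2 : ∏ x ∈ univ.erase r, (b x - Function.update a r c x) =
        ∏ x ∈ univ.erase r, (b x - a x) :=
      Finset.prod_congr rfl fun x hx => by
        rw [Function.update_of_ne (Finset.ne_of_mem_erase hx)]
    simp only [Function.update_self]
    rw [p1, p2]
    ring
  unfold mu
  rw [hcount, hvol]
  ring

/-- from lower bounds for all boxes to a two-sided bound for boxes with one corner at `0` -/
theorem comp {d : ℕ} (z : ℕ → Fin d → ℝ) (hz : ∀ j r, 0 ≤ z j r ∧ z j r < 1) (N : ℕ) (M : ℝ)
    (hM : ∀ a b : Fin d → ℝ, (∀ r, 0 ≤ a r ∧ a r ≤ b r ∧ b r ≤ 1) → -M ≤ mu z N a b)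
    (q : Fin d → ℝ) (hq : ∀ r, 0 ≤ q r ∧ q r ≤ 1) :
    -M ≤ mu z N 0 q ∧ mu z N 0 q ≤ d * M := by
  classical
  refine ⟨hM 0 q fun r => ⟨le_rfl, (hq r).1, (hq r).2⟩, ?_⟩
  have key : ∀ S : Finset (Fin d),
      mu z N 0 (fun r => if r ∈ S then q r else 1) ≤ (S.card : ℝ) * M := by
    intro S
    induction S using Finset.induction_on with
    | empty =>
      have h0 : mu z N 0 (fun r => if r ∈ (∅ : Finset (Fin d)) then q r else 1) = 0 := by
        unfold mu
        rw [Finset.filter_true_of_mem]
        · simp
        · intro i _ r
          simp only [Finset.notMem_empty, if_false, Pi.zero_apply]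
          exact hz i r
      rw [h0]
      simp
    | insert r S hr ih =>
      have hcut := mu_cut z N 0 (fun r => if r ∈ S then q r else 1) r (q r) (by
        simpa using (hq r).1) (by
        simp only [if_neg hr]
        exact (hq r).2)
      have hup : Function.update (fun r => if r ∈ S then q r else 1) r (q r) =
          fun r' => if r' ∈ insert r S then q r' else 1 := by
        funext r'
        by_cases hrr : r' = r
        · subst hrr
          simp
        · rw [Function.update_of_ne hrr]
          simp [hrr]
      rw [hup] at hcut
      have hlow := hM (Function.update 0 r (q r)) (fun r => if r ∈ S then q r else 1) (by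
        intro r'
        by_cases hrr : r' = r
        · subst hrr
          rw [Function.update_self]
          simp only [if_neg hr]
          exact ⟨(hq r').1, (hq r').2, le_rfl⟩
        · rw [Function.update_of_ne hrr]
          refine ⟨le_rfl, ?_, ?_⟩
          · show (0 : ℝ) ≤ if r' ∈ S then q r' else 1
            split_ifs
            · exact (hq r').1
            · exact zero_le_one
          · show (if r' ∈ S then q r' else 1) ≤ (1 : ℝ)
            split_ifs
            · exact (hq r').2
            · exact le_rfl)
      rw [Finset.card_insert_of_notMem hr]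
      push_cast
      nlinarith [hcut, hlow, ih]
  have h := key univ
  simpa using h

end Pool.Agent.H36.KD
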