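import Mathlib

set_option autoImplicit false

/-!
# [H36 KD Defs] star discrepancy against L2 discrepancy with a dimension free exponent: definitions
-/

namespace Pool.Agent.H36.KD

open Finset MeasureTheory

/-- clamp to `[0,1]` -/
noncomputable def cl (s : ℝ) : ℝ := max 0 (min 1 s)

/-- trapezoid below the indicator of `[a,b)`, slopes `2^l` -/
noncomputable def lam (a b : ℝ) (l : ℕ) (x : ℝ) : ℝ :=
  if 1 ≤ 2 ^ l * (b - a) then cl (2 ^ l * (b - x)) + cl (2 ^ l * (x - a)) - 1 else 0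

/-- minus the derivative of `lam` -/
noncomputable def du (a b : ℝ) (l : ℕ) (t : ℝ) : ℝ :=
  if 1 ≤ 2 ^ l * (b - a) then
    2 ^ l * ((if b - 1 / 2 ^ l < t ∧ t ≤ b then 1 else 0) -
      (if a < t ∧ t ≤ a + 1 / 2 ^ l then 1 else 0)) else 0

/-- integral of `lam` -/
noncomputable def cc (a b : ℝ) (l : ℕ) : ℝ := max 0 (b - a - 1 / 2 ^ l)

/-- differences between consecutive levels -/
noncomputable def psi (a b : ℝ) (l : ℕ) (x : ℝ) : ℝ :=
  lam a b l x - if l = 0 then 0 else lam a b (l - 1) x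

noncomputable def dpsi (a b : ℝ) (l : ℕ) (t : ℝ) : ℝ :=
  du a b l t - if l = 0 then 0 else du a b (l - 1) t

noncomputable def vv (a b : ℝ) (l : ℕ) : ℝ := cc a b l - if l = 0 then 0 else cc a b (l - 1)

/-- multiindices with entries at most `L` -/
def idx (d L : ℕ) : Finset (Fin d → ℕ) := Fintype.piFinset fun _ => range (L + 1)

noncomputable def S1 (d L : ℕ) : ℝ := ∑ l ∈ (idx d L).filter (fun l => ∑ r, l r ≤ L),
  ∏ r, (Real.sqrt 2) ^ (l r)

noncomputable def S2 (d L : ℕ) : ℝ := ∑ l ∈ (idx d L).filter (fun l => ¬ ∑ r, l r ≤ L),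
  ∏ r, (1 / 2 : ℝ) ^ (l r)

/-- number of the first `N` points in `∏ [a r, b r)` minus `N` times the volume -/
noncomputable def mu {d : ℕ} (z : ℕ → Fin d → ℝ) (N : ℕ) (a b : Fin d → ℝ) : ℝ :=
  (((range N).filter (fun i => ∀ r, a r ≤ z i r ∧ z i r < b r)).card : ℝ) -
    N * ∏ r, (b r - a r)

end Pool.Agent.H36.KD
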