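import Pool.Agent.H36.KD.Main

set_option autoImplicit false

/-!
# [H36 KD Gen] the comparison of the two discrepancies for arbitrary points
-/

namespace Pool.Agent.H36.KD

open Finset MeasureTheory
open Pool.Agent.H47.KZ (Kp hh cube warnock starDisc)

theorem en_eq {d : ℕ} (z : ℕ → Fin d → ℝ) (hz : ∀ j, z j ∈ KS.Q d) (N : ℕ) (hN : 1 ≤ N) :
    en z N = (N : ℝ) ^ 2 * warnock d N z := by
  have hN0 : (N : ℝ) ≠ 0 := by
    have : (1 : ℝ) ≤ N := by exact_mod_cast hN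
    linarith
  unfold en
  rw [KS.sum_int hz (range N) N]
  unfold warnock Kp
  have e1 : ∀ j ∈ range N, hh (z j) = (2 : ℝ) ^ (-(d : ℤ)) * ∏ r, (1 - z j r ^ 2) := by
    intro j _
    unfold hh
    rw [prod_div_distrib, prod_const, card_univ, Fintype.card_fin, zpow_neg, zpow_natCast]
    field_simp
  have e2 : (2 : ℝ) ^ (1 - (d : ℤ)) = 2 * 2 ^ (-(d : ℤ)) := by
    rw [sub_eq_add_neg, zpow_add₀ (by norm_num : (2 : ℝ) ≠ 0), zpow_one]
  have e3 : (3 : ℝ) ^ (-(d : ℤ)) = (1 / 3) ^ d := by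
    rw [zpow_neg, zpow_natCast, one_div_pow, one_div]
  rw [sum_congr rfl e1, ← mul_sum, e2, e3]
  field_simp
  ring

theorem comparison (k : ℕ) : ∃ C : ℝ, ∀ z : ℕ → Fin (k + 1) → ℝ, (∀ i, z i ∈ cube (k + 1)) →
    ∀ N L : ℕ, 1 ≤ N → starDisc (k + 1) N z ≤
      C * ((L : ℝ) + 1) ^ k * (1 / 2 ^ L + Real.sqrt (2 ^ L * warnock (k + 1) N z)) := by
  refine ⟨((k : ℝ) + 1) * ((k : ℝ) + 1 + 2 ^ (k + 1) + 4 ^ (k + 1) * 4), ?_⟩
  intro z hz N L hN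
  have hNR : (1 : ℝ) ≤ N := by exact_mod_cast hN
  have hN0R : (0 : ℝ) < N := by linarith
  have hQ : ∀ j, z j ∈ KS.Q (k + 1) := fun j => ⟨fun r => (hz j r).1, fun r => (hz j r).2.le⟩
  have hne : Nonempty (cube (k + 1)) := ⟨⟨fun _ => 0, fun _ => ⟨le_rfl, one_pos⟩⟩⟩
  obtain ⟨w, hw⟩ : ∃ w, w = warnock (k + 1) N z := ⟨_, rfl⟩
  have hen := en_eq z hQ N hN
  rw [← hw] at hen ⊢
  have hw0 : 0 ≤ w := by
    have h1 := en_nonneg z N
    rw [hen] at h1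
    exact nonneg_of_mul_nonneg_right h1 (by positivity)
  have hsq : Real.sqrt (en z N) = N * Real.sqrt w := by
    rw [hen, Real.sqrt_mul (by positivity), Real.sqrt_sq hN0R.le]
  have hLk : (1 : ℝ) ≤ ((L : ℝ) + 1) ^ k :=
    one_le_pow₀ (by linarith [(Nat.cast_nonneg L : (0 : ℝ) ≤ L)])
  have e1 : (1 / 2 : ℝ) ^ L = 1 / 2 ^ L := by rw [one_div_pow]
  have e2 : Real.sqrt (2 ^ L * w) = Real.sqrt 2 ^ L * Real.sqrt w := by
    rw [Real.sqrt_mul (by positivity)]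
    congr 1
    rw [← Real.sqrt_sq (by positivity : (0 : ℝ) ≤ Real.sqrt 2 ^ L), ← pow_mul, mul_comm L 2, pow_mul,
      Real.sq_sqrt (by norm_num)]
  have hlow : ∀ a b : Fin (k + 1) → ℝ, (∀ r, 0 ≤ a r ∧ a r ≤ b r ∧ b r ≤ 1) →
      -(N * (((k : ℝ) + 1 + 2 ^ (k + 1) + 4 ^ (k + 1) * 4) * ((L : ℝ) + 1) ^ k *
        (1 / 2 ^ L + Real.sqrt (2 ^ L * w)))) ≤ mu z N a b := by
    intro a b hab
    have hmin := minor z (fun j r => hz j r) N L (en z N) (en_nonneg z N)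
      (fun u B hu hb => test z hQ N u B hu hb) a b hab
    refine le_trans ?_ hmin
    rw [neg_le_neg_iff, hsq]
    have hS1 := S1_le k L
    have hS2 := S2_le k L
    have p1 : ((k : ℝ) + 1) * (1 / 2) ^ L + S2 (k + 1) L ≤
        ((k : ℝ) + 1 + 2 ^ (k + 1)) * ((L : ℝ) + 1) ^ k * (1 / 2) ^ L := by
      have h2 : ((k : ℝ) + 1) * (1 / 2) ^ L ≤ ((k : ℝ) + 1) * ((L : ℝ) + 1) ^ k * (1 / 2) ^ L := by
        apply mul_le_mul_of_nonneg_right _ (by positivity)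
        exact le_mul_of_one_le_right (by positivity) hLk
      linarith
    have p2 : 4 ^ (k + 1) * (N * Real.sqrt w) * S1 (k + 1) L ≤
        N * (4 ^ (k + 1) * 4 * ((L : ℝ) + 1) ^ k * Real.sqrt (2 ^ L * w)) := by
      calc 4 ^ (k + 1) * (N * Real.sqrt w) * S1 (k + 1) L ≤
          4 ^ (k + 1) * (N * Real.sqrt w) * (4 * ((L : ℝ) + 1) ^ k * Real.sqrt 2 ^ L) :=
            mul_le_mul_of_nonneg_left hS1 (by positivity)
        _ = _ := by rw [e2]; ring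
    have p3 : (N : ℝ) * (((k : ℝ) + 1) * (1 / 2) ^ L + S2 (k + 1) L) ≤
        N * (((k : ℝ) + 1 + 2 ^ (k + 1)) * ((L : ℝ) + 1) ^ k * (1 / 2) ^ L) :=
      mul_le_mul_of_nonneg_left p1 hN0R.le
    have p4 : (N : ℝ) * (((k : ℝ) + 1 + 2 ^ (k + 1)) * ((L : ℝ) + 1) ^ k * (1 / 2) ^ L) +
        N * (4 ^ (k + 1) * 4 * ((L : ℝ) + 1) ^ k * Real.sqrt (2 ^ L * w)) ≤
        N * (((k : ℝ) + 1 + 2 ^ (k + 1) + 4 ^ (k + 1) * 4) * ((L : ℝ) + 1) ^ k *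
        (1 / 2 ^ L + Real.sqrt (2 ^ L * w))) := by
      rw [← mul_add]
      apply mul_le_mul_of_nonneg_left _ hN0R.le
      rw [e1]
      have q1 : 0 ≤ ((k : ℝ) + 1 + 2 ^ (k + 1)) * ((L : ℝ) + 1) ^ k * Real.sqrt (2 ^ L * w) := by
        positivity
      have q2 : 0 ≤ (4 : ℝ) ^ (k + 1) * 4 * ((L : ℝ) + 1) ^ k * (1 / 2 ^ L) := by positivity
      nlinarith
    linarith
  unfold starDisc
  apply ciSup_le
  intro q
  obtain ⟨h1, h2⟩ := comp z (fun j r => hz j r) N _ hlow q.1 fun r => ⟨(q.2 r).1, (q.2 r).2.le⟩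
  have e : (((range N).filter (fun i => ∀ r, 0 ≤ z i r ∧ z i r < q.1 r)).card : ℝ) / N
      - ∏ r, q.1 r = mu z N 0 q.1 / N := by
    unfold mu
    simp only [Pi.zero_apply, sub_zero]
    field_simp
  rw [e, abs_div, abs_of_pos hN0R, div_le_iff₀ hN0R, abs_le]
  push_cast at h2
  have h3 : 0 ≤ (N : ℝ) * (((k : ℝ) + 1 + 2 ^ (k + 1) + 4 ^ (k + 1) * 4) * ((L : ℝ) + 1) ^ k *
        (1 / 2 ^ L + Real.sqrt (2 ^ L * w))) := by positivity
  have h4 : (0 : ℝ) ≤ (k : ℝ) := Nat.cast_nonneg k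
  have h5 := mul_nonneg h4 h3
  constructor <;> nlinarith

end Pool.Agent.H36.KD
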