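import Pool.Agent.H36.KD.One

set_option autoImplicit false

/-!
# [H36 KD Minor] lower bound for the discrepancy of a box from the values of the test functions
-/

namespace Pool.Agent.H36.KD

open Finset MeasureTheory

private theorem prod_low {ι : Type*} [DecidableEq ι] (s : Finset ι) (x y : ι → ℝ) (δ : ℝ)
    (hx0 : ∀ r, 0 ≤ x r) (hxy : ∀ r, x r ≤ y r) (hy1 : ∀ r, y r ≤ 1) (hd : ∀ r, y r - δ ≤ x r) :
    ∏ r ∈ s, y r - s.card * δ ≤ ∏ r ∈ s, x r := by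
  induction s using Finset.induction_on with
  | empty => simp
  | insert a s ha ih =>
    rw [prod_insert ha, prod_insert ha, card_insert_of_notMem ha]
    push_cast
    have hX0 : 0 ≤ ∏ r ∈ s, x r := prod_nonneg fun r _ => hx0 r
    have hX1 : ∏ r ∈ s, x r ≤ 1 := prod_le_one (fun r _ => hx0 r) fun r _ => (hxy r).trans (hy1 r)
    have hy0 : 0 ≤ y a := (hx0 a).trans (hxy a)
    have hδ : 0 ≤ δ := by
      have h1 := hd a
      have h2 := hxy a
      linarith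
    have h1 : y a * ∏ r ∈ s, y r ≤ y a * (∏ r ∈ s, x r + s.card * δ) :=
      mul_le_mul_of_nonneg_left (by linarith) hy0
    have h2 : y a * (s.card * δ) ≤ 1 * (s.card * δ) :=
      mul_le_mul_of_nonneg_right (hy1 a) (by positivity)
    have h3 : y a * ∏ r ∈ s, x r ≤ (x a + δ) * ∏ r ∈ s, x r :=
      mul_le_mul_of_nonneg_right (by linarith [hd a]) hX0
    have h4 : δ * ∏ r ∈ s, x r ≤ δ * 1 := mul_le_mul_of_nonneg_left hX1 hδ
    nlinarith

/-- lower bound for the discrepancy of a box from the values of the test functions -/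
theorem minor {k : ℕ} (z : ℕ → Fin (k + 1) → ℝ) (hz : ∀ j r, 0 ≤ z j r ∧ z j r < 1) (N L : ℕ)
    (V : ℝ) (hV : 0 ≤ V)
    (htest : ∀ (u : Fin (k + 1) → ℝ → ℝ) (B : Fin (k + 1) → ℝ), (∀ r, Measurable (u r)) →
      (∀ r t, |u r t| ≤ B r) →
      |∑ i ∈ range N, ∏ r, (∫ t in (z i r)..1, u r t) - N * ∏ r, ∫ t in (0 : ℝ)..1, t * u r t| ≤
        Real.sqrt V * ∏ r, Real.sqrt (∫ t in (0 : ℝ)..1, u r t ^ 2))
    (a b : Fin (k + 1) → ℝ) (hab : ∀ r, 0 ≤ a r ∧ a r ≤ b r ∧ b r ≤ 1) :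
    -(N * (((k : ℝ) + 1) * (1 / 2) ^ L + S2 (k + 1) L) + 4 ^ (k + 1) * Real.sqrt V * S1 (k + 1) L) ≤
      mu z N a b := by
  classical
  have ha0 : ∀ r, 0 ≤ a r := fun r => (hab r).1
  have hab1 : ∀ r, a r ≤ b r := fun r => (hab r).2.1
  have hb1 : ∀ r, b r ≤ 1 := fun r => (hab r).2.2
  set Lam := (idx (k + 1) L).filter (fun l => ∑ r, l r ≤ L) with hLam
  set Lac := (idx (k + 1) L).filter (fun l => ¬ ∑ r, l r ≤ L) with hLac
  -- the count as a sum of products of indicators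
  have hcount : (((range N).filter (fun i => ∀ r, a r ≤ z i r ∧ z i r < b r)).card : ℝ) =
      ∑ i ∈ range N, ∏ r, (if a r ≤ z i r ∧ z i r < b r then (1 : ℝ) else 0) := by
    rw [card_filter, Nat.cast_sum]
    refine sum_congr rfl fun i _ => ?_
    rw [prod_boole]
    simp
  -- lower bound by the sum over the levels
  have hlow : ∀ i, ∑ l ∈ Lam, ∏ r, psi (a r) (b r) (l r) (z i r) ≤
      ∏ r, (if a r ≤ z i r ∧ z i r < b r then (1 : ℝ) else 0) := by
    intro i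
    have h1 : ∏ r, lam (a r) (b r) L (z i r) ≤
        ∏ r, (if a r ≤ z i r ∧ z i r < b r then (1 : ℝ) else 0) :=
      prod_le_prod (fun r _ => lam_nonneg _ _ _ _) fun r _ => lam_le _ _ _ _
    refine le_trans ?_ h1
    have h2 : ∏ r, lam (a r) (b r) L (z i r) =
        ∑ l ∈ idx (k + 1) L, ∏ r, psi (a r) (b r) (l r) (z i r) := by
      have h3 := prod_univ_sum (fun _ : Fin (k + 1) => range (L + 1))
        (fun (r : Fin (k + 1)) (l : ℕ) => psi (a r) (b r) l (z i r))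
      unfold idx
      refine Eq.trans ?_ h3
      exact prod_congr rfl fun r _ => (sum_psi _ _ _ _).symm
    rw [h2]
    exact sum_le_sum_of_subset_of_nonneg (filter_subset _ _)
      fun l _ _ => prod_nonneg fun r _ => psi_nonneg _ _ _ _
  -- the test functions
  have hone : ∀ l : Fin (k + 1) → ℕ,
      N * ∏ r, vv (a r) (b r) (l r) - 4 ^ (k + 1) * Real.sqrt V * ∏ r, (Real.sqrt 2) ^ (l r) ≤
      ∑ i ∈ range N, ∏ r, psi (a r) (b r) (l r) (z i r) := by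
    intro l
    have h1 := htest (fun r => dpsi (a r) (b r) (l r)) (fun r => 4 * 2 ^ (l r))
      (fun r => dpsi_meas _ _ _) (fun r t => dpsi_bd _ _ _ _)
    have h2 : ∀ i, ∏ r, (∫ t in (z i r)..1, dpsi (a r) (b r) (l r) t) =
        ∏ r, psi (a r) (b r) (l r) (z i r) := fun i =>
      prod_congr rfl fun r _ => int_dpsi _ _ (ha0 r) (hab1 r) (hb1 r) _ _ (hz i r).1 (hz i r).2.le
    have h3 : ∏ r, (∫ t in (0 : ℝ)..1, t * dpsi (a r) (b r) (l r) t) =
        ∏ r, vv (a r) (b r) (l r) :=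
      prod_congr rfl fun r _ => int_t_dpsi _ _ (ha0 r) (hab1 r) (hb1 r) _
    have h4 : ∏ r, Real.sqrt (∫ t in (0 : ℝ)..1, dpsi (a r) (b r) (l r) t ^ 2) ≤
        4 ^ (k + 1) * ∏ r, (Real.sqrt 2) ^ (l r) := by
      have h5 : ∏ r : Fin (k + 1), (4 * (Real.sqrt 2) ^ (l r)) =
          4 ^ (k + 1) * ∏ r, (Real.sqrt 2) ^ (l r) := by
        rw [prod_mul_distrib, prod_const, card_univ, Fintype.card_fin]
      rw [← h5]
      refine prod_le_prod (fun r _ => Real.sqrt_nonneg _) fun r _ => ?_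
      refine Real.sqrt_le_iff.mpr ⟨by positivity, ?_⟩
      refine (int_sq _ _ (ha0 r) (hab1 r) (hb1 r) _).trans (le_of_eq ?_)
      rw [mul_pow, ← pow_mul, mul_comm (l r) 2, pow_mul, Real.sq_sqrt (by norm_num)]
      norm_num
    have h6 : ∑ i ∈ range N, ∏ r, (∫ t in (z i r)..1, dpsi (a r) (b r) (l r) t) =
        ∑ i ∈ range N, ∏ r, psi (a r) (b r) (l r) (z i r) := sum_congr rfl fun i _ => h2 i
    rw [h6, h3] at h1
    have h7 := (abs_le.mp h1).1
    have h8 : Real.sqrt V * ∏ r, Real.sqrt (∫ t in (0 : ℝ)..1, dpsi (a r) (b r) (l r) t ^ 2) ≤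
        Real.sqrt V * (4 ^ (k + 1) * ∏ r, (Real.sqrt 2) ^ (l r)) :=
      mul_le_mul_of_nonneg_left h4 (Real.sqrt_nonneg _)
    have h9 : 4 ^ (k + 1) * Real.sqrt V * ∏ r, (Real.sqrt 2) ^ (l r) =
        Real.sqrt V * (4 ^ (k + 1) * ∏ r, (Real.sqrt 2) ^ (l r)) := by ring
    rw [h9]
    linarith
  -- the sum of the volumes
  have hsplit : ∑ l ∈ Lam, ∏ r, vv (a r) (b r) (l r) + ∑ l ∈ Lac, ∏ r, vv (a r) (b r) (l r) =
      ∏ r, cc (a r) (b r) L := by
    rw [hLam, hLac, sum_filter_add_sum_filter_not]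
    have h3 := prod_univ_sum (fun _ : Fin (k + 1) => range (L + 1))
      (fun (r : Fin (k + 1)) (l : ℕ) => vv (a r) (b r) l)
    unfold idx
    refine Eq.trans h3.symm ?_
    exact prod_congr rfl fun r _ => sum_vv _ _ _
  have hS2 : ∑ l ∈ Lac, ∏ r, vv (a r) (b r) (l r) ≤ S2 (k + 1) L := by
    unfold S2
    refine sum_le_sum fun l _ => ?_
    refine prod_le_prod (fun r _ => vv_nonneg _ _ _) fun r _ => ?_
    exact vv_le _ _ (hab1 r) (by linarith [ha0 r, hb1 r]) _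
  have hcc : ∏ r, (b r - a r) - ((k : ℝ) + 1) * (1 / 2) ^ L ≤ ∏ r, cc (a r) (b r) L := by
    have h1 := prod_low (univ : Finset (Fin (k + 1))) (fun r => cc (a r) (b r) L)
      (fun r => b r - a r) ((1 / 2) ^ L) (fun r => cc_nonneg _ _ _)
      (fun r => cc_le _ _ (hab1 r) _) (fun r => by linarith [ha0 r, hb1 r])
      (fun r => cc_ge _ _ _)
    rw [card_univ, Fintype.card_fin] at h1
    push_cast at h1
    exact h1
  have hsum : ∑ l ∈ Lam, (N * ∏ r, vv (a r) (b r) (l r) -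
      4 ^ (k + 1) * Real.sqrt V * ∏ r, (Real.sqrt 2) ^ (l r)) ≤
      ∑ i ∈ range N, ∏ r, (if a r ≤ z i r ∧ z i r < b r then (1 : ℝ) else 0) := by
    calc ∑ l ∈ Lam, (N * ∏ r, vv (a r) (b r) (l r) -
          4 ^ (k + 1) * Real.sqrt V * ∏ r, (Real.sqrt 2) ^ (l r))
        ≤ ∑ l ∈ Lam, ∑ i ∈ range N, ∏ r, psi (a r) (b r) (l r) (z i r) :=
          sum_le_sum fun l _ => hone l
      _ = ∑ i ∈ range N, ∑ l ∈ Lam, ∏ r, psi (a r) (b r) (l r) (z i r) := sum_comm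
      _ ≤ _ := sum_le_sum fun i _ => hlow i
  rw [sum_sub_distrib, ← mul_sum, ← mul_sum] at hsum
  have hS1 : ∑ l ∈ Lam, ∏ r, (Real.sqrt 2) ^ (l r) = S1 (k + 1) L := rfl
  rw [hS1] at hsum
  unfold mu
  rw [hcount]
  have hN : (0 : ℝ) ≤ N := Nat.cast_nonneg N
  have h1 : (N : ℝ) * ∏ r, (b r - a r) ≤
      N * (∏ r, cc (a r) (b r) L + ((k : ℝ) + 1) * (1 / 2) ^ L) :=
    mul_le_mul_of_nonneg_left (by linarith) hN
  have h2 : (N : ℝ) * (∏ r, cc (a r) (b r) L - S2 (k + 1) L) ≤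
      N * ∑ l ∈ Lam, ∏ r, vv (a r) (b r) (l r) :=
    mul_le_mul_of_nonneg_left (by linarith) hN
  have h3 : (N : ℝ) * (∏ r, cc (a r) (b r) L + ((k : ℝ) + 1) * (1 / 2) ^ L) =
      N * ∏ r, cc (a r) (b r) L + N * (((k : ℝ) + 1) * (1 / 2) ^ L) := by ring
  have h4 : (N : ℝ) * (∏ r, cc (a r) (b r) L - S2 (k + 1) L) =
      N * ∏ r, cc (a r) (b r) L - N * S2 (k + 1) L := by ring
  have h5 : (N : ℝ) * (((k : ℝ) + 1) * (1 / 2) ^ L + S2 (k + 1) L) =
      N * (((k : ℝ) + 1) * (1 / 2) ^ L) + N * S2 (k + 1) L := by ring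
  rw [h3] at h1
  rw [h4] at h2
  rw [h5]
  linarith

end Pool.Agent.H36.KD
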