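import Pool.Agent.H36.KD.Defs

/-!
# [H36 KD Sums] the two sums over multiindices
-/

set_option autoImplicit false

namespace Pool.Agent.H36.KD

open Finset

private theorem idx_split {d : ℕ} (L : ℕ) (f : (Fin (d + 1) → ℕ) → ℝ) :
    ∑ l ∈ idx (d + 1) L, f l = ∑ j ∈ range (L + 1), ∑ l ∈ idx d L, f (Fin.cons j l) := by
  rw [← sum_product']
  symm
  apply sum_nbij' (fun p => (Fin.cons p.1 p.2 : Fin (d + 1) → ℕ)) (fun l => (l 0, Fin.tail l))
  · intro p hp
    rw [mem_product] at hp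
    obtain ⟨h1, h2⟩ := hp
    unfold idx at h2 ⊢
    rw [Fintype.mem_piFinset] at h2 ⊢
    intro i
    refine Fin.cases ?_ ?_ i
    · simpa using h1
    · intro i
      simpa using h2 i
  · intro l hl
    unfold idx at hl
    rw [Fintype.mem_piFinset] at hl
    rw [mem_product]
    refine ⟨hl 0, ?_⟩
    unfold idx
    rw [Fintype.mem_piFinset]
    intro i
    exact hl i.succ
  · intro p _
    simp
  · intro l _
    simp
  · intro p _
    rfl

/-- the first sum with a free bound -/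
private noncomputable def A1 (s : ℝ) (d L M : ℕ) : ℝ :=
  ∑ l ∈ idx d L, if ∑ r, l r ≤ M then ∏ r, s ^ (l r) else 0

private noncomputable def A2 (s : ℝ) (d L M : ℕ) : ℝ :=
  ∑ l ∈ idx d L, if ¬ ∑ r, l r ≤ M then ∏ r, s ^ (l r) else 0

private theorem A1_nonneg {s : ℝ} (hs : 0 ≤ s) (d L M : ℕ) : 0 ≤ A1 s d L M := by
  unfold A1
  refine sum_nonneg fun l _ => ?_
  split_ifs
  · exact prod_nonneg fun r _ => pow_nonneg hs _
  · exact le_rfl

private theorem A2_nonneg {s : ℝ} (hs : 0 ≤ s) (d L M : ℕ) : 0 ≤ A2 s d L M := by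
  unfold A2
  refine sum_nonneg fun l _ => ?_
  split_ifs
  · exact le_rfl
  · exact prod_nonneg fun r _ => pow_nonneg hs _

private theorem A1_zero (s : ℝ) (L M : ℕ) : A1 s 0 L M = 1 := by
  unfold A1
  have h : idx 0 L = {fun i => i.elim0} := by
    unfold idx
    ext l
    simp only [Fintype.mem_piFinset, IsEmpty.forall_iff, mem_singleton, true_iff]
    funext i
    exact i.elim0
  rw [h]
  simp

private theorem A2_zero (s : ℝ) (L M : ℕ) : A2 s 0 L M = 0 := by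
  unfold A2
  refine sum_eq_zero fun l _ => ?_
  simp

private theorem A1_succ {s : ℝ} (hs : 0 ≤ s) (d L M : ℕ) :
    A1 s (d + 1) L M ≤ ∑ j ∈ range (M + 1), s ^ j * A1 s d L (M - j) := by
  have h1 : A1 s (d + 1) L M =
      ∑ j ∈ range (L + 1), if j ≤ M then s ^ j * A1 s d L (M - j) else 0 := by
    unfold A1
    rw [idx_split]
    refine sum_congr rfl fun j _ => ?_
    split_ifs with hj
    · rw [mul_sum]
      refine sum_congr rfl fun l _ => ?_
      rw [Fin.sum_univ_succ, Fin.prod_univ_succ]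
      simp only [Fin.cons_zero, Fin.cons_succ]
      by_cases h : ∑ r, l r ≤ M - j
      · rw [if_pos h, if_pos (by omega)]
      · rw [if_neg h, if_neg (by omega), mul_zero]
    · refine sum_eq_zero fun l _ => ?_
      rw [Fin.sum_univ_succ]
      simp only [Fin.cons_zero, Fin.cons_succ]
      rw [if_neg (by omega)]
  rw [h1, ← sum_filter]
  refine sum_le_sum_of_subset_of_nonneg ?_ ?_
  · intro j hj
    rw [mem_filter] at hj
    exact mem_range.2 (by omega)
  · intro j _ _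
    exact mul_nonneg (pow_nonneg hs _) (A1_nonneg hs _ _ _)

private theorem geom_half (n : ℕ) : ∑ j ∈ range n, (1 / 2 : ℝ) ^ j ≤ 2 - 2 * (1 / 2 : ℝ) ^ n := by
  induction n with
  | zero => simp
  | succ n ih =>
    rw [sum_range_succ, pow_succ]
    linarith

private theorem tot_le (d L : ℕ) : ∑ l ∈ idx d L, ∏ r, (1 / 2 : ℝ) ^ (l r) ≤ 2 ^ d := by
  unfold idx
  rw [← prod_univ_sum (fun _ : Fin d => range (L + 1)) (fun (_ : Fin d) j => (1 / 2 : ℝ) ^ j)]
  have h : ∑ j ∈ range (L + 1), (1 / 2 : ℝ) ^ j ≤ 2 := by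
    have h1 := geom_half (L + 1)
    have h2 : (0 : ℝ) ≤ (1 / 2 : ℝ) ^ (L + 1) := by positivity
    linarith
  calc ∏ _i : Fin d, ∑ j ∈ range (L + 1), (1 / 2 : ℝ) ^ j ≤ ∏ _i : Fin d, (2 : ℝ) :=
        prod_le_prod (fun _ _ => sum_nonneg fun _ _ => by positivity) (fun _ _ => h)
    _ = 2 ^ d := by simp

private theorem tail_half (L M : ℕ) :
    ∑ j ∈ (range (L + 1)).filter (fun j => ¬ j ≤ M), (1 / 2 : ℝ) ^ j ≤ (1 / 2 : ℝ) ^ M := by
  rcases le_or_gt L M with h | h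
  · rw [sum_eq_zero]
    · positivity
    · intro j hj
      rw [mem_filter, mem_range] at hj
      omega
  · have h1 : (range (L + 1)).filter (fun j => ¬ j ≤ M) =
        (range (L - M)).image (fun i => M + 1 + i) := by
      ext j
      simp only [mem_filter, mem_range, mem_image]
      constructor
      · rintro ⟨h2, h3⟩
        exact ⟨j - (M + 1), by omega, by omega⟩
      · rintro ⟨i, h2, rfl⟩
        omega
    rw [h1, sum_image (fun a _ b _ h => by omega)]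
    have h2 : ∑ i ∈ range (L - M), (1 / 2 : ℝ) ^ (M + 1 + i) =
        (1 / 2 : ℝ) ^ (M + 1) * ∑ i ∈ range (L - M), (1 / 2 : ℝ) ^ i := by
      rw [mul_sum]
      exact sum_congr rfl fun i _ => pow_add _ _ _
    rw [h2]
    have h3 := geom_half (L - M)
    have h4 : (0 : ℝ) ≤ (1 / 2 : ℝ) ^ (L - M) := by positivity
    calc (1 / 2 : ℝ) ^ (M + 1) * ∑ i ∈ range (L - M), (1 / 2 : ℝ) ^ i ≤
        (1 / 2 : ℝ) ^ (M + 1) * 2 := mul_le_mul_of_nonneg_left (by linarith) (by positivity)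
      _ = (1 / 2 : ℝ) ^ M := by rw [pow_succ]; ring

private theorem A2_succ (d L M : ℕ) :
    A2 (1 / 2) (d + 1) L M ≤ ∑ j ∈ range (M + 1), (1 / 2 : ℝ) ^ j * A2 (1 / 2) d L (M - j) +
      (1 / 2 : ℝ) ^ M * 2 ^ d := by
  have hs : (0 : ℝ) ≤ 1 / 2 := by norm_num
  have h1 : A2 (1 / 2) (d + 1) L M ≤
      ∑ j ∈ range (L + 1), ((if j ≤ M then (1 / 2 : ℝ) ^ j * A2 (1 / 2) d L (M - j) else 0) +
        (if ¬ j ≤ M then (1 / 2 : ℝ) ^ j * 2 ^ d else 0)) := by
    have h0 : A2 (1 / 2) (d + 1) L M = ∑ l ∈ idx (d + 1) L,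
        if ¬ ∑ r, l r ≤ M then ∏ r, (1 / 2 : ℝ) ^ (l r) else 0 := rfl
    rw [h0, idx_split]
    refine sum_le_sum fun j _ => ?_
    by_cases hj : j ≤ M
    · rw [if_pos hj, if_neg (not_not.2 hj), add_zero]
      unfold A2
      rw [mul_sum]
      refine le_of_eq (sum_congr rfl fun l _ => ?_)
      rw [Fin.sum_univ_succ, Fin.prod_univ_succ]
      simp only [Fin.cons_zero, Fin.cons_succ]
      by_cases h : ∑ r, l r ≤ M - j
      · rw [if_neg (not_not.2 h), if_neg (by omega), mul_zero]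
      · rw [if_pos h, if_pos (by omega)]
    · rw [if_neg hj, if_pos hj, zero_add]
      have h2 : ∑ l ∈ idx d L, (if ¬ ∑ r, (Fin.cons j l : Fin (d + 1) → ℕ) r ≤ M then
          ∏ r, (1 / 2 : ℝ) ^ ((Fin.cons j l : Fin (d + 1) → ℕ) r) else 0) =
          (1 / 2 : ℝ) ^ j * ∑ l ∈ idx d L, ∏ r, (1 / 2 : ℝ) ^ (l r) := by
        rw [mul_sum]
        refine sum_congr rfl fun l _ => ?_
        rw [Fin.sum_univ_succ, Fin.prod_univ_succ]
        simp only [Fin.cons_zero, Fin.cons_succ]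
        rw [if_pos (by omega)]
      rw [h2]
      exact mul_le_mul_of_nonneg_left (tot_le d L) (by positivity)
  refine h1.trans ?_
  rw [sum_add_distrib, ← sum_filter, ← sum_filter]
  refine add_le_add ?_ ?_
  · refine sum_le_sum_of_subset_of_nonneg ?_ ?_
    · intro j hj
      rw [mem_filter] at hj
      exact mem_range.2 (by omega)
    · intro j _ _
      exact mul_nonneg (pow_nonneg hs _) (A2_nonneg hs _ _ _)
  · rw [← sum_mul]
    exact mul_le_mul_of_nonneg_right (tail_half L M) (by positivity)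

private theorem geom_sqrt (M : ℕ) :
    ∑ j ∈ range (M + 1), (Real.sqrt 2) ^ j ≤ 4 * (Real.sqrt 2) ^ M := by
  have hs : (1.4 : ℝ) ≤ Real.sqrt 2 := Real.le_sqrt_of_sq_le (by norm_num)
  induction M with
  | zero => simp
  | succ M ih =>
    rw [sum_range_succ]
    have h1 : 0 ≤ (Real.sqrt 2) ^ M := by positivity
    have h2 : (Real.sqrt 2) ^ (M + 1) = (Real.sqrt 2) ^ M * Real.sqrt 2 := pow_succ _ _
    rw [h2]
    nlinarith [mul_nonneg h1 (sub_nonneg.2 hs)]

private theorem A1_le (k L : ℕ) : ∀ M : ℕ,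
    A1 (Real.sqrt 2) (k + 1) L M ≤ 4 * ((M : ℝ) + 1) ^ k * (Real.sqrt 2) ^ M := by
  have hs : (0 : ℝ) ≤ Real.sqrt 2 := Real.sqrt_nonneg 2
  induction k with
  | zero =>
    intro M
    refine (A1_succ hs 0 L M).trans ?_
    simp only [A1_zero, mul_one, pow_zero]
    exact geom_sqrt M
  | succ k ih =>
    intro M
    refine (A1_succ hs (k + 1) L M).trans ?_
    have h : ∀ j ∈ range (M + 1), Real.sqrt 2 ^ j * A1 (Real.sqrt 2) (k + 1) L (M - j) ≤
        4 * ((M : ℝ) + 1) ^ k * (Real.sqrt 2) ^ M := by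
      intro j hj
      have hj' : j ≤ M := by
        have := mem_range.1 hj
        omega
      have h2 : (((M - j : ℕ) : ℝ) + 1) ^ k ≤ ((M : ℝ) + 1) ^ k := by
        have h3 : ((M - j : ℕ) : ℝ) ≤ (M : ℝ) := by exact_mod_cast Nat.sub_le M j
        gcongr
      calc Real.sqrt 2 ^ j * A1 (Real.sqrt 2) (k + 1) L (M - j) ≤
          Real.sqrt 2 ^ j * (4 * (((M - j : ℕ) : ℝ) + 1) ^ k * (Real.sqrt 2) ^ (M - j)) :=
            mul_le_mul_of_nonneg_left (ih (M - j)) (pow_nonneg hs _)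
        _ = 4 * (((M - j : ℕ) : ℝ) + 1) ^ k * (Real.sqrt 2 ^ j * (Real.sqrt 2) ^ (M - j)) := by ring
        _ = 4 * (((M - j : ℕ) : ℝ) + 1) ^ k * (Real.sqrt 2) ^ M := by
            rw [← pow_add, Nat.add_sub_cancel' hj']
        _ ≤ 4 * ((M : ℝ) + 1) ^ k * (Real.sqrt 2) ^ M := by gcongr
    refine (sum_le_sum h).trans ?_
    rw [sum_const, card_range, nsmul_eq_mul]
    push_cast
    apply le_of_eq
    ring

private theorem A2_le (k L : ℕ) : ∀ M : ℕ,
    A2 (1 / 2) (k + 1) L M ≤ 2 ^ (k + 1) * ((M : ℝ) + 1) ^ k * (1 / 2) ^ M := by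
  have hs : (0 : ℝ) ≤ 1 / 2 := by norm_num
  induction k with
  | zero =>
    intro M
    refine (A2_succ 0 L M).trans ?_
    simp only [A2_zero, mul_zero, sum_const_zero, pow_zero, mul_one, zero_add, pow_one]
    have : (0 : ℝ) ≤ (1 / 2 : ℝ) ^ M := by positivity
    linarith
  | succ k ih =>
    intro M
    refine (A2_succ (k + 1) L M).trans ?_
    have h : ∀ j ∈ range (M + 1), (1 / 2 : ℝ) ^ j * A2 (1 / 2) (k + 1) L (M - j) ≤
        2 ^ (k + 1) * ((M : ℝ) + 1) ^ k * (1 / 2) ^ M := by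
      intro j hj
      have hj' : j ≤ M := by
        have := mem_range.1 hj
        omega
      have h2 : (((M - j : ℕ) : ℝ) + 1) ^ k ≤ ((M : ℝ) + 1) ^ k := by
        have h3 : ((M - j : ℕ) : ℝ) ≤ (M : ℝ) := by exact_mod_cast Nat.sub_le M j
        gcongr
      calc (1 / 2 : ℝ) ^ j * A2 (1 / 2) (k + 1) L (M - j) ≤
          (1 / 2 : ℝ) ^ j * (2 ^ (k + 1) * (((M - j : ℕ) : ℝ) + 1) ^ k * (1 / 2) ^ (M - j)) :=
            mul_le_mul_of_nonneg_left (ih (M - j)) (by positivity)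
        _ = 2 ^ (k + 1) * (((M - j : ℕ) : ℝ) + 1) ^ k *
            ((1 / 2 : ℝ) ^ j * (1 / 2) ^ (M - j)) := by ring
        _ = 2 ^ (k + 1) * (((M - j : ℕ) : ℝ) + 1) ^ k * (1 / 2) ^ M := by
            rw [← pow_add, Nat.add_sub_cancel' hj']
        _ ≤ 2 ^ (k + 1) * ((M : ℝ) + 1) ^ k * (1 / 2) ^ M := by gcongr
    have h5 := sum_le_sum h
    rw [sum_const, card_range, nsmul_eq_mul] at h5
    push_cast at h5
    have h6 : (1 : ℝ) ≤ ((M : ℝ) + 1) ^ (k + 1) := by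
      apply one_le_pow₀
      have : (0 : ℝ) ≤ M := Nat.cast_nonneg M
      linarith
    have h7 : (0 : ℝ) < 2 ^ (k + 1) * (1 / 2) ^ M := by positivity
    have h8 : (2 : ℝ) ^ (k + 1 + 1) * ((M : ℝ) + 1) ^ (k + 1) * (1 / 2) ^ M =
        ((M : ℝ) + 1) * (2 ^ (k + 1) * ((M : ℝ) + 1) ^ k * (1 / 2) ^ M) +
        ((M : ℝ) + 1) ^ (k + 1) * (2 ^ (k + 1) * (1 / 2) ^ M) := by ring
    rw [h8]
    refine add_le_add h5 ?_
    calc (1 / 2 : ℝ) ^ M * 2 ^ (k + 1) = 1 * (2 ^ (k + 1) * (1 / 2) ^ M) := by ring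
      _ ≤ ((M : ℝ) + 1) ^ (k + 1) * (2 ^ (k + 1) * (1 / 2) ^ M) :=
          mul_le_mul_of_nonneg_right h6 h7.le

theorem S1_le (k L : ℕ) : S1 (k + 1) L ≤ 4 * ((L : ℝ) + 1) ^ k * (Real.sqrt 2) ^ L := by
  have h := A1_le k L L
  unfold A1 at h
  unfold S1
  rw [sum_filter]
  exact h

theorem S2_le (k L : ℕ) : S2 (k + 1) L ≤ 2 ^ (k + 1) * ((L : ℝ) + 1) ^ k * (1 / 2) ^ L := by
  have h := A2_le k L L
  unfold A2 at h
  unfold S2
  rw [sum_filter]
  exact h

end Pool.Agent.H36.KD
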