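import Pool.Agent.H36.KD.Test
import Pool.Agent.H36.KD.Comp
import Pool.Agent.H36.KD.Minor
import Pool.Agent.H36.KD.Sums

set_option autoImplicit false

/-!
# [H36 KD Main] final assembly: `D_N^* ≤ C (log N)^(d-1) / N^(1/3)`
-/

namespace Pool.Agent.H36.KD

open Finset
open Pool.Agent.H47.KZ (IsKritzinger cube starDisc)

/-- lower bound for all boxes -/
theorem lower {k m : ℕ} {z : ℕ → Fin (k + 1) → ℝ} (h : IsKritzinger (k + 1) m z) (N L : ℕ)
    (hN : m ≤ N) (hL : (2 : ℝ) ^ (3 * L) ≤ N) (a b : Fin (k + 1) → ℝ)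
    (hab : ∀ r, 0 ≤ a r ∧ a r ≤ b r ∧ b r ≤ 1) :
    -(((k : ℝ) + 1 + 2 ^ (k + 1) + 4 ^ (k + 1) * (8 * m)) * ((L : ℝ) + 1) ^ k * (N / 2 ^ L)) ≤
      mu z N a b := by
  have hm1 : (1 : ℝ) ≤ m := by exact_mod_cast h.nonempty
  have hNR : (1 : ℝ) ≤ N := by
    have : (m : ℝ) ≤ N := by exact_mod_cast hN
    linarith
  have hmin := minor z (fun j r => h.mem j r) N L (en z N)
    (en_nonneg z N) (fun u B hu hb => test z (KS.mem_cube_Q h) N u B hu hb) a b hab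
  refine le_trans ?_ hmin
  rw [neg_le_neg_iff]
  have hS1 := S1_le k L
  have hS2 := S2_le k L
  have hLk : (1 : ℝ) ≤ ((L : ℝ) + 1) ^ k := one_le_pow₀ (by linarith [(Nat.cast_nonneg L : (0 : ℝ) ≤ L)])
  have hP : (0 : ℝ) < 2 ^ L := by positivity
  have e1 : (1 / 2 : ℝ) ^ L = 1 / 2 ^ L := by rw [one_div_pow]
  have hV : Real.sqrt (en z N) ≤ 2 * m * Real.sqrt N := by
    have h1 := en_le h N hN
    have h2 : en z N ≤ (2 * m) ^ 2 * N := by
      have a1 : (1 : ℝ) ≤ m ^ 2 := one_le_pow₀ hm1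
      have a2 : 0 ≤ ((m : ℝ) ^ 2 - 1) * N := mul_nonneg (by linarith) (by linarith)
      have a3 : 0 ≤ (m : ℝ) ^ 2 * (N - 1) := mul_nonneg (by positivity) (by linarith)
      nlinarith
    calc Real.sqrt (en z N) ≤ Real.sqrt ((2 * m) ^ 2 * N) := Real.sqrt_le_sqrt h2
      _ = 2 * m * Real.sqrt N := by
          rw [Real.sqrt_mul (by positivity), Real.sqrt_sq (by positivity)]
  have hQ : Real.sqrt N * Real.sqrt 2 ^ L ≤ N / 2 ^ L := by
    rw [le_div_iff₀ hP]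
    have h1 : Real.sqrt 2 ^ L * 2 ^ L ≤ Real.sqrt N := by
      refine Real.le_sqrt_of_sq_le ?_
      have e : (Real.sqrt 2 ^ L * 2 ^ L) ^ 2 = 2 ^ (3 * L) := by
        rw [mul_pow, ← pow_mul, mul_comm L 2, pow_mul, Real.sq_sqrt (by norm_num), ← pow_mul,
          ← pow_add]
        congr 1
        ring
      rw [e]
      exact hL
    calc Real.sqrt N * Real.sqrt 2 ^ L * 2 ^ L = Real.sqrt N * (Real.sqrt 2 ^ L * 2 ^ L) := by ring
      _ ≤ Real.sqrt N * Real.sqrt N := mul_le_mul_of_nonneg_left h1 (Real.sqrt_nonneg _)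
      _ = N := Real.mul_self_sqrt (by linarith)
  have hT : (0 : ℝ) ≤ N / 2 ^ L := by positivity
  have p1 : (N : ℝ) * (((k : ℝ) + 1) * (1 / 2) ^ L + S2 (k + 1) L) ≤
      (((k : ℝ) + 1) + 2 ^ (k + 1)) * ((L : ℝ) + 1) ^ k * (N / 2 ^ L) := by
    have h1 : ((k : ℝ) + 1) * (1 / 2) ^ L + S2 (k + 1) L ≤
        ((k : ℝ) + 1 + 2 ^ (k + 1)) * ((L : ℝ) + 1) ^ k * (1 / 2) ^ L := by
      have h2 : ((k : ℝ) + 1) * (1 / 2) ^ L ≤ ((k : ℝ) + 1) * ((L : ℝ) + 1) ^ k * (1 / 2) ^ L := by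
        apply mul_le_mul_of_nonneg_right _ (by positivity)
        exact le_mul_of_one_le_right (by positivity) hLk
      linarith
    calc (N : ℝ) * (((k : ℝ) + 1) * (1 / 2) ^ L + S2 (k + 1) L) ≤
        N * (((k : ℝ) + 1 + 2 ^ (k + 1)) * ((L : ℝ) + 1) ^ k * (1 / 2) ^ L) :=
          mul_le_mul_of_nonneg_left h1 (by linarith)
      _ = _ := by rw [e1]; ring
  have p2 : 4 ^ (k + 1) * Real.sqrt (en z N) * S1 (k + 1) L ≤
      4 ^ (k + 1) * (8 * m) * ((L : ℝ) + 1) ^ k * (N / 2 ^ L) := by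
    calc 4 ^ (k + 1) * Real.sqrt (en z N) * S1 (k + 1) L ≤
        4 ^ (k + 1) * (2 * m * Real.sqrt N) * (4 * ((L : ℝ) + 1) ^ k * Real.sqrt 2 ^ L) := by
          apply mul_le_mul _ hS1 _ (by positivity)
          · exact mul_le_mul_of_nonneg_left hV (by positivity)
          · unfold S1
            exact sum_nonneg fun l _ => prod_nonneg fun r _ => by positivity
      _ = 4 ^ (k + 1) * (8 * m) * ((L : ℝ) + 1) ^ k * (Real.sqrt N * Real.sqrt 2 ^ L) := by ring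
      _ ≤ 4 ^ (k + 1) * (8 * m) * ((L : ℝ) + 1) ^ k * (N / 2 ^ L) :=
          mul_le_mul_of_nonneg_left hQ (by positivity)
  have e3 : ((k : ℝ) + 1 + 2 ^ (k + 1) + 4 ^ (k + 1) * (8 * m)) * ((L : ℝ) + 1) ^ k * (N / 2 ^ L) =
      (((k : ℝ) + 1) + 2 ^ (k + 1)) * ((L : ℝ) + 1) ^ k * (N / 2 ^ L) +
      4 ^ (k + 1) * (8 * m) * ((L : ℝ) + 1) ^ k * (N / 2 ^ L) := by ring
  rw [e3]
  linarith

theorem core {k m : ℕ} {z : ℕ → Fin (k + 1) → ℝ} (h : IsKritzinger (k + 1) m z) (N L : ℕ)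
    (hN : m ≤ N) (hL : (2 : ℝ) ^ (3 * L) ≤ N) (q : Fin (k + 1) → ℝ) (hq : ∀ r, 0 ≤ q r ∧ q r ≤ 1) :
    |mu z N 0 q| ≤ ((k : ℝ) + 1) * (((k : ℝ) + 1 + 2 ^ (k + 1) + 4 ^ (k + 1) * (8 * m)) *
      ((L : ℝ) + 1) ^ k * (N / 2 ^ L)) := by
  obtain ⟨h1, h2⟩ := comp z (fun j r => h.mem j r) N _ (fun a b hab => lower h N L hN hL a b hab) q hq
  have h3 : 0 ≤ ((k : ℝ) + 1 + 2 ^ (k + 1) + 4 ^ (k + 1) * (8 * m)) *
      ((L : ℝ) + 1) ^ k * (N / 2 ^ L) := by positivity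
  have h4 : (0 : ℝ) ≤ (k : ℝ) := Nat.cast_nonneg k
  push_cast at h2
  rw [abs_le]
  constructor
  · nlinarith [mul_nonneg h4 h3]
  · exact h2

theorem main (k m : ℕ) : ∃ C : ℝ, ∀ z : ℕ → Fin (k + 1) → ℝ, IsKritzinger (k + 1) m z →
    ∀ N : ℕ, 2 ≤ N → starDisc (k + 1) N z ≤ C * Real.log N ^ k / (N : ℝ) ^ (1 / 3 : ℝ) := by
  obtain ⟨A, hA⟩ : ∃ A : ℝ, A = ((k : ℝ) + 1) * ((k : ℝ) + 1 + 2 ^ (k + 1) + 4 ^ (k + 1) * (8 * m)) :=
    ⟨_, rfl⟩
  have hA0 : 0 ≤ A := by rw [hA]; positivity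
  have hlog2 : (0 : ℝ) < Real.log 2 := Real.log_pos one_lt_two
  have hlog2' : (1 : ℝ) / 2 ≤ Real.log 2 := by linarith [Real.log_two_gt_d9]
  refine ⟨m / Real.log 2 ^ k + A * 4 ^ k * 2, ?_⟩
  intro z h N hN2
  have hz : ∀ j r, 0 ≤ z j r ∧ z j r < 1 := fun j r => h.mem j r
  have hNR : (2 : ℝ) ≤ N := by exact_mod_cast hN2
  have hN0R : (0 : ℝ) < N := by linarith
  have hlogN : Real.log 2 ≤ Real.log N := Real.log_le_log (by norm_num) hNR
  have hlogN0 : 0 < Real.log N := by linarith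
  obtain ⟨R, hR⟩ : ∃ R : ℝ, R = (N : ℝ) ^ (1 / 3 : ℝ) := ⟨_, rfl⟩
  have hR1 : 1 ≤ R := by
    rw [hR]
    exact Real.one_le_rpow (by linarith) (by norm_num)
  have hR0 : 0 < R := by linarith
  have hRpow : R ^ 3 = N := by
    rw [hR, ← Real.rpow_natCast, ← Real.rpow_mul hN0R.le]
    norm_num
  rw [← hR]
  have hne : Nonempty (cube (k + 1)) := ⟨⟨fun _ => 0, fun _ => ⟨le_rfl, one_pos⟩⟩⟩
  by_cases hbig : m ≤ N
  · obtain ⟨L, hL⟩ : ∃ L : ℕ, L = Nat.log 2 ⌊R⌋₊ := ⟨_, rfl⟩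
    have hfl : 1 ≤ ⌊R⌋₊ := Nat.le_floor (by exact_mod_cast hR1)
    have hL1 : (2 : ℝ) ^ L ≤ R := by
      have h1 : 2 ^ L ≤ ⌊R⌋₊ := by rw [hL]; exact Nat.pow_log_le_self 2 (by omega)
      have h2 : ((2 ^ L : ℕ) : ℝ) ≤ R := (Nat.cast_le.2 h1).trans (Nat.floor_le hR0.le)
      exact_mod_cast h2
    have hL2 : R < 2 ^ (L + 1) := by
      have h1 : ⌊R⌋₊ < 2 ^ (L + 1) := by rw [hL]; exact Nat.lt_pow_succ_log_self (by norm_num) _
      have h2 := (Nat.floor_lt hR0.le).1 h1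
      exact_mod_cast h2
    have hL3 : (2 : ℝ) ^ (3 * L) ≤ N := by
      rw [mul_comm, pow_mul, ← hRpow]
      exact pow_le_pow_left₀ (by positivity) hL1 3
    have hT0 : (0 : ℝ) < 2 ^ L := by positivity
    have hLN : (L : ℝ) + 1 ≤ 4 * Real.log N := by
      have h1 : (L : ℝ) * Real.log 2 ≤ Real.log N := by
        have h2 : Real.log ((2 : ℝ) ^ L) ≤ Real.log N := by
          apply Real.log_le_log hT0
          refine hL1.trans ?_
          rw [← hRpow]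
          exact le_self_pow₀ hR1 (by norm_num)
        rwa [Real.log_pow] at h2
      have h3 : (L : ℝ) * (1 / 2) ≤ L * Real.log 2 :=
        mul_le_mul_of_nonneg_left hlog2' (Nat.cast_nonneg L)
      linarith
    have hb : starDisc (k + 1) N z ≤ A * ((L : ℝ) + 1) ^ k / 2 ^ L := by
      unfold starDisc
      apply ciSup_le
      intro q
      have hc := core h N L hbig hL3 q.1 fun r => ⟨(q.2 r).1, (q.2 r).2.le⟩
      have e : (((range N).filter (fun i => ∀ r, 0 ≤ z i r ∧ z i r < q.1 r)).card : ℝ) / N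
          - ∏ r, q.1 r = mu z N 0 q.1 / N := by
        unfold mu
        simp only [Pi.zero_apply, sub_zero]
        field_simp
      rw [e, abs_div, abs_of_pos hN0R, div_le_iff₀ hN0R]
      refine hc.trans (le_of_eq ?_)
      rw [hA]
      ring
    refine hb.trans ?_
    have h1 : A * ((L : ℝ) + 1) ^ k / 2 ^ L ≤ A * (4 * Real.log N) ^ k * 2 / R := by
      rw [div_le_div_iff₀ hT0 hR0]
      have h2 : ((L : ℝ) + 1) ^ k ≤ (4 * Real.log N) ^ k := pow_le_pow_left₀ (by positivity) hLN _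
      have h3 : R ≤ 2 * 2 ^ L := by rw [pow_succ] at hL2; linarith
      calc A * ((L : ℝ) + 1) ^ k * R ≤ A * (4 * Real.log N) ^ k * (2 * 2 ^ L) := by gcongr
        _ = A * (4 * Real.log N) ^ k * 2 * 2 ^ L := by ring
    refine h1.trans ?_
    apply div_le_div_of_nonneg_right _ hR0.le
    rw [mul_pow]
    have h4 : 0 ≤ (m : ℝ) / Real.log 2 ^ k * Real.log N ^ k := by positivity
    nlinarith
  · push Not at hbig
    have hle : starDisc (k + 1) N z ≤ 1 := by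
      unfold starDisc
      apply ciSup_le
      intro q
      have h1 : (((range N).filter (fun i => ∀ r, 0 ≤ z i r ∧ z i r < q.1 r)).card : ℝ) / N ≤ 1 := by
        rw [div_le_one hN0R]
        have := Finset.card_filter_le (range N) (fun i => ∀ r, 0 ≤ z i r ∧ z i r < q.1 r)
        rw [Finset.card_range] at this
        exact_mod_cast this
      have h2 : 0 ≤ (((range N).filter (fun i => ∀ r, 0 ≤ z i r ∧ z i r < q.1 r)).card : ℝ) / N := by
        positivity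
      have h3 : 0 ≤ ∏ r, q.1 r := Finset.prod_nonneg (fun r _ => (q.2 r).1)
      have h4 : ∏ r, q.1 r ≤ 1 := Finset.prod_le_one (fun r _ => (q.2 r).1) (fun r _ => (q.2 r).2.le)
      rw [abs_le]
      constructor <;> linarith
    refine hle.trans ?_
    rw [le_div_iff₀ hR0, one_mul]
    have h1 : R ≤ m := by
      have h2 : R ≤ N := by
        rw [← hRpow]
        exact le_self_pow₀ hR1 (by norm_num)
      have h3 : (N : ℝ) ≤ m := by exact_mod_cast hbig.le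
      linarith
    have h4 : (m : ℝ) ≤ m / Real.log 2 ^ k * Real.log N ^ k := by
      rw [div_mul_eq_mul_div, le_div_iff₀ (by positivity)]
      apply mul_le_mul_of_nonneg_left _ (Nat.cast_nonneg _)
      exact pow_le_pow_left₀ hlog2.le hlogN _
    have h5 : 0 ≤ A * 4 ^ k * 2 * Real.log N ^ k := by positivity
    nlinarith

end Pool.Agent.H36.KD
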