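import Pool.Agent.H36.KD.Defs

set_option autoImplicit false

/-!
# [H36 KD One] One-dimensional lemmas on the trapezoids
-/

namespace Pool.Agent.H36.KD

open Finset MeasureTheory

private lemma cl_nonneg (s : ℝ) : 0 ≤ cl s := le_max_left _ _

private lemma cl_le (s : ℝ) : cl s ≤ 1 := max_le zero_le_one (min_le_left _ _)

private lemma cl_of_le {s : ℝ} (h : s ≤ 0) : cl s = 0 := by
  unfold cl
  exact max_eq_left ((min_le_right _ _).trans h)

private lemma cl_of_ge {s : ℝ} (h : 1 ≤ s) : cl s = 1 := by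
  unfold cl
  rw [min_eq_left h]
  exact max_eq_right zero_le_one

private lemma cl_mid {s : ℝ} (h0 : 0 ≤ s) (h1 : s ≤ 1) : cl s = s := by
  unfold cl
  rw [min_eq_right h1]
  exact max_eq_right h0

private lemma cl_mono {s t : ℝ} (h : s ≤ t) : cl s ≤ cl t := by
  unfold cl
  exact max_le_max le_rfl (min_le_min le_rfl h)

private lemma cl_one_sub (s : ℝ) : cl (1 - s) = 1 - cl s := by
  rcases le_total s 0 with h | h
  · rw [cl_of_le h, cl_of_ge (by linarith)]; ring
  · rcases le_total s 1 with h1 | h1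
    · rw [cl_mid h h1, cl_mid (by linarith) (by linarith)]
    · rw [cl_of_ge h1, cl_of_le (by linarith)]; ring

private lemma two_pos' (l : ℕ) : (0 : ℝ) < 2 ^ l := by positivity

private lemma half_pow (l : ℕ) : (1 / 2 : ℝ) ^ l = 1 / 2 ^ l := by rw [one_div_pow]

theorem lam_nonneg (a b : ℝ) (l : ℕ) (x : ℝ) : 0 ≤ lam a b l x := by
  unfold lam
  split_ifs with h
  · have h2 := two_pos' l
    rcases le_total 1 (2 ^ l * (b - x)) with h3 | h3
    · rw [cl_of_ge h3]
      have := cl_nonneg (2 ^ l * (x - a))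
      linarith
    · rcases le_total 1 (2 ^ l * (x - a)) with h4 | h4
      · rw [cl_of_ge h4]
        have := cl_nonneg (2 ^ l * (b - x))
        linarith
      · rw [cl_mid (by nlinarith) h3, cl_mid (by nlinarith) h4]
        nlinarith
  · exact le_rfl

theorem lam_le (a b : ℝ) (l : ℕ) (x : ℝ) : lam a b l x ≤ if a ≤ x ∧ x < b then 1 else 0 := by
  unfold lam
  have h2 := two_pos' l
  have c1 := cl_le (2 ^ l * (b - x))
  have c2 := cl_le (2 ^ l * (x - a))
  split_ifs with h h1 h1
  · linarith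
  · rw [not_and_or, not_le, not_lt] at h1
    rcases h1 with h1 | h1
    · rw [cl_of_le (s := 2 ^ l * (x - a)) (by nlinarith)]
      linarith
    · rw [cl_of_le (s := 2 ^ l * (b - x)) (by nlinarith)]
      linarith
  · exact zero_le_one
  · exact le_rfl

private lemma lam_succ (a b : ℝ) (l : ℕ) (x : ℝ) : lam a b l x ≤ lam a b (l + 1) x := by
  by_cases h : 1 ≤ 2 ^ l * (b - a)
  · have h2 := two_pos' l
    have hab : 0 < b - a := by
      by_contra hcon
      rw [not_lt] at hcon
      nlinarith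
    have h' : 1 ≤ 2 ^ (l + 1) * (b - a) := by rw [pow_succ]; nlinarith
    have hl := lam_le a b l x
    have hn := lam_nonneg a b (l + 1) x
    by_cases hx : a ≤ x ∧ x < b
    · unfold lam
      rw [if_pos h, if_pos h']
      have e1 : cl (2 ^ l * (b - x)) ≤ cl (2 ^ (l + 1) * (b - x)) := by
        apply cl_mono
        rw [pow_succ]
        have : 0 ≤ 2 ^ l * (b - x) := mul_nonneg h2.le (by linarith [hx.2])
        linarith
      have e2 : cl (2 ^ l * (x - a)) ≤ cl (2 ^ (l + 1) * (x - a)) := by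
        apply cl_mono
        rw [pow_succ]
        have : 0 ≤ 2 ^ l * (x - a) := mul_nonneg h2.le (by linarith [hx.1])
        linarith
      linarith
    · rw [if_neg hx] at hl
      linarith
  · have e : lam a b l x = 0 := by unfold lam; rw [if_neg h]
    rw [e]
    exact lam_nonneg _ _ _ _

theorem psi_nonneg (a b : ℝ) (l : ℕ) (x : ℝ) : 0 ≤ psi a b l x := by
  unfold psi
  cases l with
  | zero => simpa using lam_nonneg a b 0 x
  | succ l =>
    rw [if_neg (Nat.succ_ne_zero l), Nat.add_sub_cancel]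
    have := lam_succ a b l x
    linarith

theorem sum_psi (a b : ℝ) (L : ℕ) (x : ℝ) : ∑ l ∈ range (L + 1), psi a b l x = lam a b L x := by
  induction L with
  | zero => simp [psi]
  | succ L ih =>
    rw [sum_range_succ, ih]
    unfold psi
    rw [if_neg (Nat.succ_ne_zero L), Nat.add_sub_cancel]
    ring

theorem cc_nonneg (a b : ℝ) (l : ℕ) : 0 ≤ cc a b l := le_max_left _ _

theorem cc_le (a b : ℝ) (hab : a ≤ b) (l : ℕ) : cc a b l ≤ b - a := by
  unfold cc
  have : (0 : ℝ) ≤ 1 / 2 ^ l := by positivity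
  exact max_le (by linarith) (by linarith)

theorem cc_ge (a b : ℝ) (l : ℕ) : b - a - (1 / 2) ^ l ≤ cc a b l := by
  unfold cc
  rw [half_pow]
  exact le_max_right _ _

private lemma cc_succ (a b : ℝ) (l : ℕ) : cc a b l ≤ cc a b (l + 1) := by
  unfold cc
  apply max_le_max le_rfl
  have h : (1 : ℝ) / 2 ^ (l + 1) ≤ 1 / 2 ^ l := by
    rw [pow_succ]
    apply one_div_le_one_div_of_le (two_pos' l)
    have := two_pos' l
    linarith
  linarith

theorem vv_nonneg (a b : ℝ) (l : ℕ) : 0 ≤ vv a b l := by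
  unfold vv
  cases l with
  | zero => simpa using cc_nonneg a b 0
  | succ l =>
    rw [if_neg (Nat.succ_ne_zero l), Nat.add_sub_cancel]
    have := cc_succ a b l
    linarith

theorem vv_le (a b : ℝ) (hab : a ≤ b) (h1 : b - a ≤ 1) (l : ℕ) : vv a b l ≤ (1 / 2) ^ l := by
  unfold vv
  cases l with
  | zero =>
    simp only [if_true, pow_zero, sub_zero]
    unfold cc
    simp only [pow_zero, div_one]
    exact max_le zero_le_one (by linarith)
  | succ l =>
    rw [if_neg (Nat.succ_ne_zero l), Nat.add_sub_cancel]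
    have h2 := cc_ge a b l
    have h3 : (1 / 2 : ℝ) ^ l = 2 * (1 / 2) ^ (l + 1) := by rw [pow_succ]; ring
    have h4 := cc_nonneg a b l
    have h5 : (0 : ℝ) < (1 / 2) ^ (l + 1) := by positivity
    unfold cc at h2 h4 ⊢
    rw [← half_pow] at h2 h4 ⊢
    rw [← half_pow]
    rcases max_cases 0 (b - a - (1 / 2) ^ (l + 1)) with h6 | h6
    · rw [h6.1]; linarith
    · rw [h6.1]; linarith

theorem sum_vv (a b : ℝ) (L : ℕ) : ∑ l ∈ range (L + 1), vv a b l = cc a b L := by
  induction L with
  | zero => simp [vv]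
  | succ L ih =>
    rw [sum_range_succ, ih]
    unfold vv
    rw [if_neg (Nat.succ_ne_zero L), Nat.add_sub_cancel]
    ring

/-! ### the step functions -/

private lemma meas_ind (p q : ℝ) : Measurable fun t : ℝ => if p < t ∧ t ≤ q then (1 : ℝ) else 0 := by
  have e : (fun t : ℝ => if p < t ∧ t ≤ q then (1 : ℝ) else 0) = (Set.Ioc p q).indicator fun _ => 1 := by
    ext t
    simp [Set.indicator, Set.mem_Ioc]
  rw [e]
  exact measurable_const.indicator measurableSet_Ioc

private lemma du_meas (a b : ℝ) (l : ℕ) : Measurable (du a b l) := by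
  by_cases h : 1 ≤ 2 ^ l * (b - a)
  · have e : du a b l = fun t => 2 ^ l * ((if b - 1 / 2 ^ l < t ∧ t ≤ b then (1 : ℝ) else 0) -
      (if a < t ∧ t ≤ a + 1 / 2 ^ l then (1 : ℝ) else 0)) := by
      ext t
      unfold du
      rw [if_pos h]
    rw [e]
    exact ((meas_ind _ _).sub (meas_ind _ _)).const_mul _
  · have e : du a b l = fun _ => 0 := by
      ext t
      unfold du
      rw [if_neg h]
    rw [e]
    exact measurable_const

theorem dpsi_meas (a b : ℝ) (l : ℕ) : Measurable (dpsi a b l) := by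
  unfold dpsi
  split_ifs
  · exact (du_meas a b l).sub measurable_const
  · exact (du_meas a b l).sub (du_meas a b (l - 1))

private lemma du_bd (a b : ℝ) (l : ℕ) (t : ℝ) : |du a b l t| ≤ 2 ^ l := by
  have h2 := two_pos' l
  unfold du
  split_ifs <;> simp [abs_of_pos h2, h2.le]

theorem dpsi_bd (a b : ℝ) (l : ℕ) (t : ℝ) : |dpsi a b l t| ≤ 4 * 2 ^ l := by
  have h2 := two_pos' l
  unfold dpsi
  cases l with
  | zero =>
    have := du_bd a b 0 t
    simp only [if_true, sub_zero]
    linarith
  | succ l =>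
    rw [if_neg (Nat.succ_ne_zero l), Nat.add_sub_cancel]
    have h3 := du_bd a b (l + 1) t
    have h4 := du_bd a b l t
    have h5 := abs_sub (du a b (l + 1) t) (du a b l t)
    have h6 : (2 : ℝ) ^ (l + 1) = 2 * 2 ^ l := by rw [pow_succ]; ring
    have h7 := two_pos' l
    linarith

private lemma ii {f : ℝ → ℝ} (hf : Continuous f) (p q u v : ℝ) :
    IntervalIntegrable (fun t => if p < t ∧ t ≤ q then f t else 0) volume u v := by
  have e : (fun t => if p < t ∧ t ≤ q then f t else 0) = (Set.Ioc p q).indicator f := by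
    ext t
    simp [Set.indicator, Set.mem_Ioc]
  rw [e]
  exact ⟨(hf.intervalIntegrable u v).1.indicator measurableSet_Ioc,
    (hf.intervalIntegrable u v).2.indicator measurableSet_Ioc⟩

private lemma int_ind (f : ℝ → ℝ) (p q x : ℝ) (hx : x ≤ 1) :
    ∫ t in x..1, (if p < t ∧ t ≤ q then f t else 0) = ∫ t in Set.Ioc (max x p) (min 1 q), f t := by
  have e : (fun t => if p < t ∧ t ≤ q then f t else 0) = (Set.Ioc p q).indicator f := by
    ext t
    simp [Set.indicator, Set.mem_Ioc]
  rw [e, intervalIntegral.integral_of_le hx, setIntegral_indicator measurableSet_Ioc, Set.Ioc_inter_Ioc]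

private lemma int_one (p q x : ℝ) (hx : x ≤ 1) :
    ∫ t in x..1, (if p < t ∧ t ≤ q then (1 : ℝ) else 0) = max (min 1 q - max x p) 0 := by
  rw [int_ind (fun _ => 1) p q x hx, setIntegral_const, Real.volume_real_Ioc, smul_eq_mul, mul_one]

private lemma int_du (a b : ℝ) (ha : 0 ≤ a) (hab : a ≤ b) (hb : b ≤ 1) (l : ℕ) (x : ℝ) (hx1 : x ≤ 1) :
    ∫ t in x..1, du a b l t = lam a b l x := by
  by_cases h : 1 ≤ 2 ^ l * (b - a)
  · have h2 := two_pos' l
    have hh : (0 : ℝ) < 1 / 2 ^ l := by positivity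
    have hh2 : 1 / 2 ^ l * (2 : ℝ) ^ l = 1 := by field_simp
    have hhb : 1 / 2 ^ l ≤ b - a := by
      rw [div_le_iff₀ h2, mul_comm]; exact h
    have e : du a b l = fun t => 2 ^ l * ((if b - 1 / 2 ^ l < t ∧ t ≤ b then (1 : ℝ) else 0) -
      (if a < t ∧ t ≤ a + 1 / 2 ^ l then (1 : ℝ) else 0)) := by
      ext t
      unfold du
      rw [if_pos h]
    rw [e, intervalIntegral.integral_const_mul, intervalIntegral.integral_sub
      (ii continuous_const _ _ _ _) (ii continuous_const _ _ _ _), int_one _ _ _ hx1, int_one _ _ _ hx1]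
    unfold lam
    rw [if_pos h, mul_sub]
    obtain ⟨k, hk⟩ : ∃ k : ℝ, k = 1 / 2 ^ l := ⟨_, rfl⟩
    rw [← hk] at hh hh2 hhb ⊢
    have g1 : 2 ^ l * max (min 1 b - max x (b - k)) 0 = cl (2 ^ l * (b - x)) := by
      rw [min_eq_right hb]
      rcases le_total x (b - k) with h3 | h3
      · rw [max_eq_right h3, max_eq_left (by linarith), cl_of_ge]
        · rw [sub_sub_cancel, mul_comm]; exact hh2
        · nlinarith
      · rw [max_eq_left h3]
        rcases le_total b x with h4 | h4
        · rw [max_eq_right (by linarith), cl_of_le (by nlinarith), mul_zero]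
        · rw [max_eq_left (by linarith), cl_mid (by nlinarith) (by nlinarith)]
    have g2 : 2 ^ l * max (min 1 (a + k) - max x a) 0 = 1 - cl (2 ^ l * (x - a)) := by
      rw [min_eq_right (by linarith), ← cl_one_sub]
      rcases le_total x a with h3 | h3
      · rw [max_eq_right h3, max_eq_left (by linarith), cl_of_ge (by nlinarith)]
        rw [add_sub_cancel_left, mul_comm]; exact hh2
      · rw [max_eq_left h3]
        rcases le_total (a + k) x with h4 | h4
        · rw [max_eq_right (by linarith), cl_of_le (by nlinarith), mul_zero]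
        · rw [max_eq_left (by linarith), cl_mid (by nlinarith) (by nlinarith)]
          nlinarith
    rw [g1, g2]
    ring
  · have e : du a b l = fun _ => 0 := by
      ext t
      unfold du
      rw [if_neg h]
    rw [e]
    unfold lam
    rw [if_neg h]
    simp

private lemma du_ii (a b : ℝ) (l : ℕ) (u v : ℝ) : IntervalIntegrable (du a b l) volume u v := by
  refine (intervalIntegrable_const (c := (2 : ℝ) ^ l)).mono_fun' (du_meas a b l).aestronglyMeasurable ?_
  exact Filter.Eventually.of_forall fun t => du_bd a b l t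

theorem int_dpsi (a b : ℝ) (ha : 0 ≤ a) (hab : a ≤ b) (hb : b ≤ 1) (l : ℕ) (x : ℝ) (hx : 0 ≤ x)
    (hx1 : x ≤ 1) : ∫ t in x..1, dpsi a b l t = psi a b l x := by
  unfold dpsi psi
  cases l with
  | zero =>
    simp only [if_true, sub_zero]
    exact int_du a b ha hab hb 0 x hx1
  | succ l =>
    simp only [if_neg (Nat.succ_ne_zero l), Nat.add_sub_cancel]
    rw [intervalIntegral.integral_sub (du_ii _ _ _ _ _) (du_ii _ _ _ _ _),
      int_du a b ha hab hb (l + 1) x hx1, int_du a b ha hab hb l x hx1]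

private lemma int_t_du (a b : ℝ) (ha : 0 ≤ a) (hab : a ≤ b) (hb : b ≤ 1) (l : ℕ) :
    ∫ t in (0 : ℝ)..1, t * du a b l t = cc a b l := by
  by_cases h : 1 ≤ 2 ^ l * (b - a)
  · have h2 := two_pos' l
    have hh : (0 : ℝ) < 1 / 2 ^ l := by positivity
    have hh2 : 1 / 2 ^ l * (2 : ℝ) ^ l = 1 := by field_simp
    have hhb : 1 / 2 ^ l ≤ b - a := by
      rw [div_le_iff₀ h2, mul_comm]; exact h
    have e : (fun t => t * du a b l t) = fun t => 2 ^ l * ((if b - 1 / 2 ^ l < t ∧ t ≤ b then t else 0) -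
      (if a < t ∧ t ≤ a + 1 / 2 ^ l then t else 0)) := by
      ext t
      unfold du
      rw [if_pos h]
      split_ifs <;> ring
    rw [e, intervalIntegral.integral_const_mul, intervalIntegral.integral_sub
      (ii (f := fun t => t) continuous_id' _ _ _ _) (ii (f := fun t => t) continuous_id' _ _ _ _)]
    have k1 := int_ind (fun t => t) (b - 1 / 2 ^ l) b 0 zero_le_one
    have k2 := int_ind (fun t => t) a (a + 1 / 2 ^ l) 0 zero_le_one
    rw [k1, k2]
    obtain ⟨k, hk⟩ : ∃ k : ℝ, k = 1 / 2 ^ l := ⟨_, rfl⟩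
    unfold cc
    rw [← hk] at hh hh2 hhb ⊢
    rw [max_eq_right (show 0 ≤ b - k by linarith), min_eq_right hb, max_eq_right ha,
      min_eq_right (show a + k ≤ 1 by linarith), ← intervalIntegral.integral_of_le (by linarith),
      ← intervalIntegral.integral_of_le (by linarith), integral_id, integral_id,
      max_eq_right (show 0 ≤ b - a - k by linarith)]
    have e2 : (2 : ℝ) ^ l * ((b ^ 2 - (b - k) ^ 2) / 2 - ((a + k) ^ 2 - a ^ 2) / 2) =
        (k * 2 ^ l) * (b - a - k) := by ring
    rw [e2, hh2, one_mul]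
  · have e : (fun t => t * du a b l t) = fun _ => 0 := by
      ext t
      unfold du
      rw [if_neg h, mul_zero]
    rw [e]
    unfold cc
    have h2 := two_pos' l
    rw [max_eq_left]
    · simp
    · rw [not_le] at h
      have : b - a < 1 / 2 ^ l := by
        rw [lt_div_iff₀ h2, mul_comm]; exact h
      linarith

theorem int_t_dpsi (a b : ℝ) (ha : 0 ≤ a) (hab : a ≤ b) (hb : b ≤ 1) (l : ℕ) :
    ∫ t in (0 : ℝ)..1, t * dpsi a b l t = vv a b l := by
  unfold dpsi vv
  cases l with
  | zero =>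
    simp only [if_true, sub_zero]
    exact int_t_du a b ha hab hb 0
  | succ l =>
    simp only [if_neg (Nat.succ_ne_zero l), Nat.add_sub_cancel, mul_sub]
    have hi : ∀ m, IntervalIntegrable (fun t => t * du a b m t) volume 0 1 := fun m =>
      (du_ii a b m 0 1).continuousOn_mul (g := fun t => t) continuous_id'.continuousOn
    rw [intervalIntegral.integral_sub (hi _) (hi _),
      int_t_du a b ha hab hb (l + 1), int_t_du a b ha hab hb l]

/-- majorant of the square of `du` -/
private noncomputable def G (a b : ℝ) (l : ℕ) (t : ℝ) : ℝ :=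
  4 ^ l * ((if b - 1 / 2 ^ l < t ∧ t ≤ b then (1 : ℝ) else 0) +
      (if a < t ∧ t ≤ a + 1 / 2 ^ l then (1 : ℝ) else 0))

private lemma G_nonneg (a b : ℝ) (l : ℕ) (t : ℝ) : 0 ≤ G a b l t := by
  unfold G
  have : (0 : ℝ) < 4 ^ l := by positivity
  split_ifs <;> simp [this.le]

private lemma sq_le_G (a b : ℝ) (l : ℕ) (t : ℝ) : du a b l t ^ 2 ≤ G a b l t := by
  have h4 : (4 : ℝ) ^ l = (2 ^ l) ^ 2 := by
    rw [← pow_mul, mul_comm, pow_mul]; norm_num
  have h0 := G_nonneg a b l t
  by_cases h : 1 ≤ 2 ^ l * (b - a)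
  · unfold du
    rw [if_pos h]
    unfold G at h0 ⊢
    rw [h4] at h0 ⊢
    have h2 : (0 : ℝ) ≤ (2 ^ l) ^ 2 := by positivity
    split_ifs <;> nlinarith
  · have e : du a b l t = 0 := by
      unfold du
      rw [if_neg h]
    rw [e]
    simpa using h0

private lemma G_ii (a b : ℝ) (l : ℕ) (u v : ℝ) : IntervalIntegrable (G a b l) volume u v := by
  unfold G
  exact ((ii continuous_const _ _ _ _).add (ii continuous_const _ _ _ _)).const_mul _

private lemma int_G (a b : ℝ) (l : ℕ) : ∫ t in (0 : ℝ)..1, G a b l t ≤ 2 * 2 ^ l := by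
  unfold G
  rw [intervalIntegral.integral_const_mul, intervalIntegral.integral_add
    (ii continuous_const _ _ _ _) (ii continuous_const _ _ _ _), int_one _ _ _ zero_le_one,
    int_one _ _ _ zero_le_one]
  have h2 := two_pos' l
  have hh : (0 : ℝ) < 1 / 2 ^ l := by positivity
  have g1 : max (min 1 b - max 0 (b - 1 / 2 ^ l)) 0 ≤ 1 / 2 ^ l := by
    apply max_le _ hh.le
    have := min_le_right 1 b
    have := le_max_right 0 (b - 1 / 2 ^ l)
    linarith
  have g2 : max (min 1 (a + 1 / 2 ^ l) - max 0 a) 0 ≤ 1 / 2 ^ l := by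
    apply max_le _ hh.le
    have := min_le_right 1 (a + 1 / 2 ^ l)
    have := le_max_right 0 a
    linarith
  have h4 : (4 : ℝ) ^ l = 2 ^ l * 2 ^ l := by rw [← mul_pow]; norm_num
  have h5 : (4 : ℝ) ^ l * (1 / 2 ^ l + 1 / 2 ^ l) = 2 * 2 ^ l := by
    rw [h4]; field_simp; ring
  rw [← h5]
  exact mul_le_mul_of_nonneg_left (add_le_add g1 g2) (by positivity)

theorem int_sq (a b : ℝ) (ha : 0 ≤ a) (hab : a ≤ b) (hb : b ≤ 1) (l : ℕ) :
    ∫ t in (0 : ℝ)..1, dpsi a b l t ^ 2 ≤ 16 * 2 ^ l := by
  have hi : IntervalIntegrable (fun t => dpsi a b l t ^ 2) volume 0 1 := by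
    refine (intervalIntegrable_const (c := (4 * (2 : ℝ) ^ l) ^ 2)).mono_fun'
      ((dpsi_meas a b l).pow_const 2).aestronglyMeasurable ?_
    refine Filter.Eventually.of_forall fun t => ?_
    show ‖dpsi a b l t ^ 2‖ ≤ (4 * (2 : ℝ) ^ l) ^ 2
    rw [norm_pow, Real.norm_eq_abs]
    exact pow_le_pow_left₀ (abs_nonneg _) (dpsi_bd a b l t) 2
  have h2 := two_pos' l
  cases l with
  | zero =>
    have h1 : ∫ t in (0 : ℝ)..1, dpsi a b 0 t ^ 2 ≤ ∫ t in (0 : ℝ)..1, G a b 0 t := by
      apply intervalIntegral.integral_mono zero_le_one hi (G_ii _ _ _ _ _)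
      intro t
      have := sq_le_G a b 0 t
      simpa [dpsi] using this
    have h3 := int_G a b 0
    linarith
  | succ l =>
    have h1 : ∫ t in (0 : ℝ)..1, dpsi a b (l + 1) t ^ 2 ≤
        ∫ t in (0 : ℝ)..1, (2 * G a b (l + 1) t + 2 * G a b l t) := by
      apply intervalIntegral.integral_mono zero_le_one hi
        (((G_ii _ _ _ _ _).const_mul 2).add ((G_ii _ _ _ _ _).const_mul 2))
      intro t
      have h3 := sq_le_G a b (l + 1) t
      have h4 := sq_le_G a b l t
      have e : dpsi a b (l + 1) t = du a b (l + 1) t - du a b l t := by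
        unfold dpsi
        rw [if_neg (Nat.succ_ne_zero l), Nat.add_sub_cancel]
      simp only [e]
      nlinarith [sq_nonneg (du a b (l + 1) t + du a b l t)]
    rw [intervalIntegral.integral_add ((G_ii _ _ _ _ _).const_mul 2) ((G_ii _ _ _ _ _).const_mul 2),
      intervalIntegral.integral_const_mul, intervalIntegral.integral_const_mul] at h1
    have h3 := int_G a b (l + 1)
    have h4 := int_G a b l
    have h6 : (2 : ℝ) ^ (l + 1) = 2 * 2 ^ l := by rw [pow_succ]; ring
    have h7 := two_pos' l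
    linarith

end Pool.Agent.H36.KD
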