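import Pool.Agent.H36.KS.Fin
import Pool.Agent.H36.KD.Defs

set_option autoImplicit false

/-!
# [H36 KD Test] products of step functions tested against the discrepancy function; energy bound
-/

namespace Pool.Agent.H36.KD

open Finset MeasureTheory
open Pool.Agent.H47.KZ (Kp hh kap E IsKritzinger)
open Pool.Agent.H36.KS (Q ind)

/-- Cauchy-Schwarz for bounded measurable functions on the cube -/
theorem cs {d : ℕ} (f g : (Fin d → ℝ) → ℝ) (hf : Measurable f) (hg : Measurable g) (A B : ℝ)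
    (hA : ∀ q ∈ Q d, |f q| ≤ A) (hB : ∀ q ∈ Q d, |g q| ≤ B) :
    |∫ q in Q d, f q * g q| ≤ Real.sqrt (∫ q in Q d, f q ^ 2) * Real.sqrt (∫ q in Q d, g q ^ 2) := by
  have hfin : IsFiniteMeasure ((volume : Measure (Fin d → ℝ)).restrict (Q d)) :=
    ⟨by rw [Measure.restrict_apply_univ, KS.vol_Q]; exact ENNReal.one_lt_top⟩
  have hint : ∀ (p : (Fin d → ℝ) → ℝ) (C : ℝ), Measurable p → (∀ q ∈ Q d, |p q| ≤ C) →
      IntegrableOn p (Q d) := fun p C hp hC =>
    Integrable.mono' (integrable_const C) hp.aestronglyMeasurable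
      (ae_restrict_of_forall_mem measurableSet_Icc hC)
  have i1 : IntegrableOn (fun q => f q ^ 2) (Q d) := hint _ (A ^ 2) (hf.pow_const 2) fun q hq => by
    rw [abs_pow]
    exact pow_le_pow_left₀ (abs_nonneg _) (hA q hq) 2
  have i2 : IntegrableOn (fun q => g q ^ 2) (Q d) := hint _ (B ^ 2) (hg.pow_const 2) fun q hq => by
    rw [abs_pow]
    exact pow_le_pow_left₀ (abs_nonneg _) (hB q hq) 2
  have i3 : IntegrableOn (fun q => f q * g q) (Q d) := hint _ (A * B) (hf.mul hg) fun q hq => by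
    rw [abs_mul]
    exact mul_le_mul (hA q hq) (hB q hq) (abs_nonneg _) ((abs_nonneg _).trans (hA q hq))
  have key : ∀ x : ℝ, 0 ≤ (∫ q in Q d, g q ^ 2) * (x * x) + (-2 * ∫ q in Q d, f q * g q) * x +
      ∫ q in Q d, f q ^ 2 := by
    intro x
    have h0 : 0 ≤ ∫ q in Q d, (f q - x * g q) ^ 2 := integral_nonneg fun q => sq_nonneg _
    have e : ∀ q, (f q - x * g q) ^ 2 = f q ^ 2 - 2 * x * (f q * g q) + x ^ 2 * g q ^ 2 := by
      intro q
      ring
    have i4 : IntegrableOn (fun q => f q ^ 2 - 2 * x * (f q * g q)) (Q d) :=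
      i1.sub (i3.const_mul _)
    rw [integral_congr_ae (Filter.Eventually.of_forall e), integral_add i4 (i2.const_mul _),
      integral_sub i1 (i3.const_mul _), integral_const_mul, integral_const_mul] at h0
    linarith
  have hd := discrim_le_zero key
  unfold discrim at hd
  rw [← Real.sqrt_mul (integral_nonneg fun q => sq_nonneg _)]
  refine Real.abs_le_sqrt ?_
  nlinarith

/-- the energy -/
noncomputable def en {d : ℕ} (z : ℕ → Fin d → ℝ) (N : ℕ) : ℝ :=
  ∫ q in Q d, (∑ i ∈ range N, ind (z i) q - N * ∏ r, q r) ^ 2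

theorem en_nonneg {d : ℕ} (z : ℕ → Fin d → ℝ) (N : ℕ) : 0 ≤ en z N :=
  integral_nonneg fun q => sq_nonneg _

theorem test {d : ℕ} (z : ℕ → Fin d → ℝ) (hz : ∀ j, z j ∈ Q d) (N : ℕ) (u : Fin d → ℝ → ℝ)
    (B : Fin d → ℝ) (hu : ∀ r, Measurable (u r)) (hb : ∀ r t, |u r t| ≤ B r) :
    |∑ i ∈ range N, ∏ r, (∫ t in (z i r)..1, u r t) - N * ∏ r, ∫ t in (0 : ℝ)..1, t * u r t| ≤
      Real.sqrt (en z N) * ∏ r, Real.sqrt (∫ t in (0 : ℝ)..1, u r t ^ 2) := by
  have hfin : IsFiniteMeasure ((volume : Measure (Fin d → ℝ)).restrict (Q d)) :=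
    ⟨by rw [Measure.restrict_apply_univ, KS.vol_Q]; exact ENNReal.one_lt_top⟩
  have hgm : Measurable (fun q : Fin d → ℝ => ∏ r, u r (q r)) :=
    Finset.measurable_prod _ fun r _ => (hu r).comp (measurable_pi_apply r)
  have hgb : ∀ q ∈ Q d, |∏ r, u r (q r)| ≤ ∏ r, B r := by
    intro q _
    rw [abs_prod]
    exact prod_le_prod (fun r _ => abs_nonneg _) fun r _ => hb r _
  have hfm : Measurable (fun q => ∑ i ∈ range N, ind (z i) q - N * ∏ r, q r) :=
    (Finset.measurable_sum _ fun l _ => KS.ind_meas_right (z l)).sub ((KS.vol_meas d).const_mul _)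
  have hfb : ∀ q ∈ Q d, |∑ i ∈ range N, ind (z i) q - N * ∏ r, q r| ≤ 2 * N := by
    intro q hq
    have a1 : |∑ i ∈ range N, ind (z i) q| ≤ N := by
      refine (abs_sum_le_sum_abs _ _).trans ((sum_le_sum fun l _ => KS.ind_abs _ _).trans ?_)
      simp
    have a2 : |(N : ℝ) * ∏ r, q r| ≤ N := by
      rw [abs_mul, abs_of_nonneg (Nat.cast_nonneg N)]
      exact mul_le_of_le_one_right (Nat.cast_nonneg N) (KS.vol_abs q hq)
    have a3 := abs_sub (∑ i ∈ range N, ind (z i) q) ((N : ℝ) * ∏ r, q r)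
    linarith
  have hcs := cs _ _ hfm hgm (2 * N) (∏ r, B r) hfb hgb
  have e2 : ∫ q in Q d, (∏ r, u r (q r)) ^ 2 = ∏ r, ∫ t in (0 : ℝ)..1, u r t ^ 2 := by
    have e : ∀ q : Fin d → ℝ, (∏ r, u r (q r)) ^ 2 = ∏ r, (u r (q r)) ^ 2 := fun q =>
      (prod_pow _ _ _).symm
    rw [integral_congr_ae (Filter.Eventually.of_forall e), KS.int_prod (fun r t => u r t ^ 2)]
  have e3 : Real.sqrt (∏ r, ∫ t in (0 : ℝ)..1, u r t ^ 2) =
      ∏ r, Real.sqrt (∫ t in (0 : ℝ)..1, u r t ^ 2) := by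
    refine Real.sqrt_prod _ fun r _ => ?_
    exact intervalIntegral.integral_nonneg zero_le_one fun t _ => sq_nonneg _
  have hbd : ∀ a : (Fin d → ℝ) → ℝ, Measurable a → (∀ q ∈ Q d, |a q| ≤ 1) →
      IntegrableOn (fun q => a q * ∏ r, u r (q r)) (Q d) := by
    intro a ha ha1
    refine Integrable.mono' (integrable_const (∏ r, B r)) (ha.mul hgm).aestronglyMeasurable ?_
    refine ae_restrict_of_forall_mem measurableSet_Icc fun q hq => ?_
    rw [Real.norm_eq_abs, abs_mul]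
    calc |a q| * |∏ r, u r (q r)| ≤ 1 * ∏ r, B r :=
          mul_le_mul (ha1 q hq) (hgb q hq) (abs_nonneg _) zero_le_one
      _ = ∏ r, B r := one_mul _
  have i1 : ∀ i, IntegrableOn (fun q => ind (z i) q * ∏ r, u r (q r)) (Q d) := fun i =>
    hbd _ (KS.ind_meas_right _) fun q _ => KS.ind_abs _ _
  have i2 : IntegrableOn (fun q : Fin d → ℝ => (∏ r, q r) * ∏ r, u r (q r)) (Q d) :=
    hbd _ (KS.vol_meas _) KS.vol_abs
  have i3 : IntegrableOn (fun q => ∑ i ∈ range N, ind (z i) q * ∏ r, u r (q r)) (Q d) :=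
    integrable_finsetSum _ fun i _ => i1 i
  have e4 : ∫ q in Q d, (∑ i ∈ range N, ind (z i) q - N * ∏ r, q r) * ∏ r, u r (q r) =
      ∑ i ∈ range N, ∏ r, (∫ t in (z i r)..1, u r t) -
        N * ∏ r, ∫ t in (0 : ℝ)..1, t * u r t := by
    have e : ∀ q : Fin d → ℝ, (∑ i ∈ range N, ind (z i) q - N * ∏ r, q r) * ∏ r, u r (q r) =
        ∑ i ∈ range N, ind (z i) q * ∏ r, u r (q r) - N * ((∏ r, q r) * ∏ r, u r (q r)) := by
      intro q
      rw [sub_mul, sum_mul]
      ring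
    rw [integral_congr_ae (Filter.Eventually.of_forall e), integral_sub i3 (i2.const_mul _),
      integral_finsetSum _ fun i _ => i1 i, integral_const_mul]
    congr 1
    · refine sum_congr rfl fun i _ => ?_
      have e5 : ∀ q : Fin d → ℝ, ind (z i) q * ∏ r, u r (q r) =
          ∏ r, (u r (q r) * (if z i r < q r then 1 else 0)) := by
        intro q
        unfold KS.ind
        rw [← prod_mul_distrib]
        exact prod_congr rfl fun r _ => mul_comm _ _
      rw [integral_congr_ae (Filter.Eventually.of_forall e5),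
        KS.int_prod (fun r t => u r t * (if z i r < t then 1 else 0))]
      exact prod_congr rfl fun r _ => KS.int_ind _ _ (KS.mem_Q (hz i) r).1 (KS.mem_Q (hz i) r).2
    · congr 1
      have e6 : ∀ q : Fin d → ℝ, (∏ r, q r) * ∏ r, u r (q r) = ∏ r, (q r * u r (q r)) := fun q =>
        prod_mul_distrib.symm
      rw [integral_congr_ae (Filter.Eventually.of_forall e6), KS.int_prod (fun r t => t * u r t)]
  rw [e4, e2, e3] at hcs
  exact hcs

theorem en_le {k m : ℕ} {z : ℕ → Fin (k + 1) → ℝ} (h : IsKritzinger (k + 1) m z) (N : ℕ)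
    (hN : m ≤ N) : en z N ≤ 2 * m ^ 2 + N := by
  have h1 := Pool.Agent.H47.KZ.E_le (KS.gr h) N hN
  have h2 : en z N = E (KS.P z) (KS.X z) N := by
    unfold en
    rw [KS.sum_int (KS.mem_cube_Q h) (range N) N]
    unfold E
    have e1 : ∀ j ∈ range N, ∑ l ∈ range N, kap (KS.P z j) (KS.P z l) * Kp (KS.X z j) (KS.X z l) =
        ∑ l ∈ range N, Kp (z j) (z l) := by
      intro j _
      refine sum_congr rfl fun l _ => ?_
      unfold kap Kp KS.P KS.X
      rw [Fin.prod_univ_succAbove (fun r => 1 - max (z j r) (z l r)) 0,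
        abs_of_nonneg (h.mem j 0).1]
    have e2 : ∀ j ∈ range N, (1 - KS.P z j ^ 2) / 2 * hh (KS.X z j) = hh (z j) := fun j _ =>
      (KS.hh_split (z j)).symm
    rw [sum_congr rfl e1, sum_congr rfl e2]
  rw [h2]
  exact h1

end Pool.Agent.H36.KD
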